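import Mathlib

/-!
Comonotone couplings: a matrix of naturals whose support is a NW-SE chain maximises the sum of
all its SE tails among the matrices with the same row and column sums, and is the only maximiser.
-/

namespace MP1c6e58.CAT

open Finset

variable {n : ℕ}

/-- the tail sum over the cells weakly SE of `(r, c)` -/
def T (e : Fin n → Fin n → ℕ) (r c : Fin n) : ℕ :=
  ∑ a ∈ univ.filter (fun a => r ≤ a), ∑ b ∈ univ.filter (fun b => c ≤ b), e a b

/-- the total of all tails -/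
def W (e : Fin n → Fin n → ℕ) : ℕ := ∑ r, ∑ c, T e r c

/-- the support is a weak NW-SE chain: no strict antidiagonal pair -/
def Chain (e : Fin n → Fin n → ℕ) : Prop :=
  ∀ a b c d : Fin n, a < c → d < b → e a b ≠ 0 → e c d = 0

/-- equal marginals -/
def SameMarg (e e' : Fin n → Fin n → ℕ) : Prop :=
  (∀ a, ∑ b, e a b = ∑ b, e' a b) ∧ (∀ b, ∑ a, e a b = ∑ a, e' a b)

lemma T_le_row (e : Fin n → Fin n → ℕ) (r c : Fin n) :
    T e r c ≤ ∑ a ∈ univ.filter (fun a => r ≤ a), ∑ b, e a b := by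
  unfold T
  refine Finset.sum_le_sum fun a _ => ?_
  exact Finset.sum_le_sum_of_subset (Finset.filter_subset _ _)

lemma T_le_col (e : Fin n → Fin n → ℕ) (r c : Fin n) :
    T e r c ≤ ∑ b ∈ univ.filter (fun b => c ≤ b), ∑ a, e a b := by
  unfold T
  rw [Finset.sum_comm]
  refine Finset.sum_le_sum fun b _ => ?_
  exact Finset.sum_le_sum_of_subset (Finset.filter_subset _ _)

lemma T_chain (e : Fin n → Fin n → ℕ) (h : Chain e) (r c : Fin n) :
    T e r c = ∑ a ∈ univ.filter (fun a => r ≤ a), ∑ b, e a b ∨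
    T e r c = ∑ b ∈ univ.filter (fun b => c ≤ b), ∑ a, e a b := by
  by_cases h1 : ∀ a b : Fin n, r ≤ a → b < c → e a b = 0
  · left
    unfold T
    refine Finset.sum_congr rfl fun a ha => ?_
    rw [Finset.mem_filter] at ha
    refine Finset.sum_subset (Finset.filter_subset _ _) fun b _ hb => ?_
    rw [Finset.mem_filter] at hb
    exact h1 a b ha.2 (not_le.mp fun hh => hb ⟨Finset.mem_univ _, hh⟩)
  · right
    push Not at h1
    obtain ⟨a0, b0, ha0, hb0, h0⟩ := h1
    unfold T
    rw [Finset.sum_comm]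
    refine Finset.sum_congr rfl fun b hb => ?_
    rw [Finset.mem_filter] at hb
    refine Finset.sum_subset (Finset.filter_subset _ _) fun a _ ha => ?_
    rw [Finset.mem_filter] at ha
    have ha' : a < r := not_le.mp fun hh => ha ⟨Finset.mem_univ _, hh⟩
    by_contra hne
    exact h0 (h a b a0 b0 (lt_of_lt_of_le ha' ha0) (lt_of_lt_of_le hb0 hb.2) hne)

lemma T_le_of_chain {e e' : Fin n → Fin n → ℕ} (h : Chain e) (hm : SameMarg e e') (r c : Fin n) :
    T e' r c ≤ T e r c := by
  rcases T_chain e h r c with h1 | h1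
  · rw [h1]
    calc T e' r c ≤ ∑ a ∈ univ.filter (fun a => r ≤ a), ∑ b, e' a b := T_le_row e' r c
      _ = _ := Finset.sum_congr rfl fun a _ => (hm.1 a).symm
  · rw [h1]
    calc T e' r c ≤ ∑ b ∈ univ.filter (fun b => c ≤ b), ∑ a, e' a b := T_le_col e' r c
      _ = _ := Finset.sum_congr rfl fun b _ => (hm.2 b).symm

lemma W_le_of_chain {e e' : Fin n → Fin n → ℕ} (h : Chain e) (hm : SameMarg e e') :
    W e' ≤ W e :=
  Finset.sum_le_sum fun r _ => Finset.sum_le_sum fun c _ => T_le_of_chain h hm r c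

lemma eq_of_T_eq {e e' : Fin n → Fin n → ℕ} (h : ∀ r c, T e' r c = T e r c) : e' = e := by
  by_contra hne
  -- a maximal cell where they differ
  let D : Finset (Fin n × Fin n) := univ.filter fun p => e' p.1 p.2 ≠ e p.1 p.2
  have hD : D.Nonempty := by
    by_contra hD
    rw [Finset.not_nonempty_iff_eq_empty] at hD
    apply hne
    funext a b
    by_contra hab
    have : (a, b) ∈ D := by simp [D, hab]
    rw [hD] at this
    simp at this
  obtain ⟨⟨r, c⟩, hrc, hmax⟩ := Finset.exists_max_image D (fun p => (p.1 : ℕ) + (p.2 : ℕ)) hD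
  have hrc' : e' r c ≠ e r c := by simpa [D] using hrc
  have key : ∀ f : Fin n → Fin n → ℕ, T f r c = f r c +
      ∑ p ∈ (univ.filter fun p : Fin n × Fin n => r ≤ p.1 ∧ c ≤ p.2).erase (r, c), f p.1 p.2 := by
    intro f
    have h1 : T f r c = ∑ p ∈ (univ.filter fun p : Fin n × Fin n => r ≤ p.1 ∧ c ≤ p.2),
        f p.1 p.2 := by
      unfold T
      rw [← Finset.sum_product']
      refine Finset.sum_congr ?_ fun _ _ => rfl
      ext p
      simp
    rw [h1, Finset.add_sum_erase _ (fun p : Fin n × Fin n => f p.1 p.2) (a := (r, c)) (by simp)]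
  have h2 := h r c
  rw [key e', key e] at h2
  have h3 : ∑ p ∈ (univ.filter fun p : Fin n × Fin n => r ≤ p.1 ∧ c ≤ p.2).erase (r, c),
      e' p.1 p.2 = ∑ p ∈ (univ.filter fun p : Fin n × Fin n => r ≤ p.1 ∧ c ≤ p.2).erase (r, c),
      e p.1 p.2 := by
    refine Finset.sum_congr rfl fun p hp => ?_
    by_contra hpe
    rw [Finset.mem_erase, Finset.mem_filter] at hp
    have hpD : p ∈ D := by simp [D, hpe]
    have h4 := hmax p hpD
    simp only at h4
    have h5 : (r : ℕ) ≤ p.1 := hp.2.2.1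
    have h6 : (c : ℕ) ≤ p.2 := hp.2.2.2
    apply hp.1
    ext
    · simp only; omega
    · simp only; omega
  omega

lemma eq_of_W_eq {e e' : Fin n → Fin n → ℕ} (h : Chain e) (hm : SameMarg e e')
    (hW : W e ≤ W e') : e' = e := by
  apply eq_of_T_eq
  intro r c
  have h1 : ∀ r ∈ (univ : Finset (Fin n)), ∑ c, T e' r c ≤ ∑ c, T e r c := fun r _ =>
    Finset.sum_le_sum fun c _ => T_le_of_chain h hm r c
  have h2 : ∑ r, ∑ c, T e' r c = ∑ r, ∑ c, T e r c := le_antisymm (W_le_of_chain h hm) hW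
  have h3 := (Finset.sum_eq_sum_iff_of_le h1).1 h2 r (Finset.mem_univ _)
  exact (Finset.sum_eq_sum_iff_of_le fun c _ => T_le_of_chain h hm r c).1 h3 c (Finset.mem_univ _)

lemma T_sum {ι : Type*} (s : Finset ι) (f : ι → Fin n → Fin n → ℕ) (r c : Fin n) :
    T (fun a b => ∑ i ∈ s, f i a b) r c = ∑ i ∈ s, T (f i) r c := by
  unfold T
  rw [Finset.sum_comm (s := s)]
  refine Finset.sum_congr rfl fun a _ => ?_
  exact Finset.sum_comm

lemma W_sum {ι : Type*} (s : Finset ι) (f : ι → Fin n → Fin n → ℕ) :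
    W (fun a b => ∑ i ∈ s, f i a b) = ∑ i ∈ s, W (f i) := by
  unfold W
  simp_rw [T_sum]
  rw [Finset.sum_comm (s := s)]
  refine Finset.sum_congr rfl fun a _ => ?_
  exact Finset.sum_comm

end MP1c6e58.CAT
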