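import Mathlib
import Pool.Agent.Work.MP_1c6e58_ag.CAT.Coup

/-!
The map `x_{ab} ↦ ∑_i u_{i,a} v_{i,b}` (a sum of `ρ` rank one matrices) is injective on the span of
the monomials whose exponent is a sum of `ρ` chain supported matrices.
-/

namespace MP1c6e58.CAT

open Finset MvPolynomial

variable {n ρ : ℕ}

/-- exponents of monomials in the entries of an `n × n` matrix -/
abbrev Ex (n : ℕ) := (Fin n × Fin n) →₀ ℕ

/-- the parameters: `ρ` column vectors and `ρ` row vectors -/
abbrev Par (n ρ : ℕ) := Fin ρ × (Fin n ⊕ Fin n)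

/-- the entry `(a, b)` of the sum of the `ρ` rank one matrices -/
noncomputable def ent (R : Type*) [CommSemiring R] (ρ : ℕ) (p : Fin n × Fin n) :
    MvPolynomial (Par n ρ) R :=
  ∑ i : Fin ρ, X (i, Sum.inl p.1) * X (i, Sum.inr p.2)

/-- the image of the monomial with exponent `e` -/
noncomputable def img (R : Type*) [CommSemiring R] (ρ : ℕ) (e : Ex n) : MvPolynomial (Par n ρ) R :=
  e.prod fun p k => ent R ρ p ^ k

/-- the exponent of `u_{i,a} v_{i,b}` -/
noncomputable def mu1 (i : Fin ρ) (p : Fin n × Fin n) : Par n ρ →₀ ℕ :=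
  Finsupp.single (i, Sum.inl p.1) 1 + Finsupp.single (i, Sum.inr p.2) 1

/-- the exponent in the parameters attached to a tuple of matrices of naturals -/
noncomputable def mu (f : Fin ρ → Ex n) : Par n ρ →₀ ℕ :=
  ∑ i, (f i).sum fun p k => k • mu1 i p

lemma img_zero (R : Type*) [CommSemiring R] : img R ρ (0 : Ex n) = 1 := by
  simp [img]

lemma img_add (R : Type*) [CommSemiring R] (e e' : Ex n) :
    img R ρ (e + e') = img R ρ e * img R ρ e' := by
  unfold img
  rw [Finsupp.prod_add_index' (by simp) (by intro a b c; exact pow_add _ _ _)]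

lemma img_single (R : Type*) [CommSemiring R] (p : Fin n × Fin n) :
    img R ρ (Finsupp.single p 1) = ent R ρ p := by
  unfold img
  simp

lemma mu_zero : mu (0 : Fin ρ → Ex n) = 0 := by
  simp [mu]

lemma mu_add (f g : Fin ρ → Ex n) : mu (f + g) = mu f + mu g := by
  unfold mu
  rw [← Finset.sum_add_distrib]
  refine Finset.sum_congr rfl fun i _ => ?_
  rw [Pi.add_apply, Finsupp.sum_add_index' (by simp) (by intro a b c; exact add_smul _ _ _)]

lemma mu_single (i : Fin ρ) (p : Fin n × Fin n) :
    mu (Pi.single i (Finsupp.single p 1) : Fin ρ → Ex n) = mu1 i p := by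
  classical
  unfold mu
  have h : ∀ j : Fin ρ, ((Pi.single i (Finsupp.single p 1) : Fin ρ → Ex n) j).sum
      (fun p k => k • mu1 j p) = (if j = i then mu1 i p else 0) := by
    intro j
    by_cases hj : j = i
    · subst hj
      simp
    · simp [hj]
  simp_rw [h]
  simp

lemma sum_single (i : Fin ρ) (p : Fin n × Fin n) :
    ∑ j, (Pi.single i (Finsupp.single p 1) : Fin ρ → Ex n) j = Finsupp.single p 1 := by
  classical
  rw [Finset.sum_eq_single i]
  · simp
  · intro j _ hj
    simp [hj]
  · simp

lemma ent_eq (R : Type*) [CommSemiring R] (p : Fin n × Fin n) :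
    ent R ρ p = ∑ i : Fin ρ, monomial (mu1 i p) 1 := by
  unfold ent mu1
  refine Finset.sum_congr rfl fun i _ => ?_
  rw [X, X, monomial_mul, one_mul]

/-- induction over exponents, adding one variable at a time -/
lemma ex_induction {P : Ex n → Prop} (h0 : P 0)
    (h1 : ∀ e p, P e → P (e + Finsupp.single p 1)) (e : Ex n) : P e := by
  induction e using Finsupp.induction with
  | zero => exact h0
  | single_add p k f _ _ hf =>
    have : ∀ k : ℕ, P (Finsupp.single p k + f) := by
      intro k
      induction k with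
      | zero => simpa using hf
      | succ k ih =>
        have h2 : Finsupp.single p (k + 1) + f = (Finsupp.single p k + f) + Finsupp.single p 1 := by
          rw [Finsupp.single_add]
          abel
        rw [h2]
        exact h1 _ _ ih
    exact this k

/-- every exponent of the image of the monomial `e` comes from a decomposition of `e` -/
lemma exists_of_mem_support (R : Type*) [CommSemiring R] (e : Ex n) :
    ∀ m ∈ (img R ρ e).support, ∃ f : Fin ρ → Ex n, ∑ i, f i = e ∧ mu f = m := by
  classical
  refine ex_induction (P := fun e => ∀ m ∈ (img R ρ e).support, ∃ f : Fin ρ → Ex n,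
    ∑ i, f i = e ∧ mu f = m) ?_ ?_ e
  · intro m hm
    rw [img_zero] at hm
    have : m = 0 := by
      rw [mem_support_iff, coeff_one] at hm
      by_contra h
      exact hm (if_neg fun hh => h hh.symm)
    exact ⟨0, by simp, by rw [mu_zero, this]⟩
  · intro e p ih m hm
    rw [img_add, img_single] at hm
    have h1 := support_mul _ _ hm
    rw [Finset.mem_add] at h1
    obtain ⟨m1, hm1, m2, hm2, rfl⟩ := h1
    obtain ⟨f, hf1, hf2⟩ := ih m1 hm1
    have h3 : ∃ i : Fin ρ, m2 = mu1 i p := by
      rw [mem_support_iff, ent_eq, coeff_sum] at hm2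
      obtain ⟨i, _, hi⟩ := Finset.exists_ne_zero_of_sum_ne_zero hm2
      rw [coeff_monomial] at hi
      refine ⟨i, ?_⟩
      by_contra hne
      exact hi (if_neg fun hh => hne hh.symm)
    obtain ⟨i, rfl⟩ := h3
    refine ⟨f + Pi.single i (Finsupp.single p 1), ?_, ?_⟩
    · simp only [Pi.add_apply]
      rw [Finset.sum_add_distrib, sum_single, hf1]
    · rw [mu_add, mu_single, hf2]

/-- the decomposition `g` contributes to the image -/
def Good (g : Fin ρ → Ex n) : Prop := 1 ≤ coeff (mu g) (img ℕ ρ (∑ i, g i))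

lemma good_zero : Good (0 : Fin ρ → Ex n) := by
  unfold Good
  rw [mu_zero]
  simp [img_zero]

lemma good_step (g : Fin ρ → Ex n) (i : Fin ρ) (p : Fin n × Fin n) (hg : Good g) :
    Good (g + Pi.single i (Finsupp.single p 1)) := by
  classical
  unfold Good at hg ⊢
  have h0 : ∑ j, (g + Pi.single i (Finsupp.single p 1) : Fin ρ → Ex n) j =
      ∑ j, g j + Finsupp.single p 1 := by
    simp only [Pi.add_apply]
    rw [Finset.sum_add_distrib, sum_single]
  rw [h0, img_add, img_single, mu_add, mu_single, coeff_mul]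
  have h1 : ((mu g, mu1 i p) : (Par n ρ →₀ ℕ) × (Par n ρ →₀ ℕ)) ∈
      Finset.HasAntidiagonal.antidiagonal (mu g + mu1 i p) := by
    rw [Finset.HasAntidiagonal.mem_antidiagonal]
  have h2 : 1 ≤ coeff (mu1 i p) (ent ℕ ρ p) := by
    rw [ent_eq, coeff_sum]
    refine le_trans ?_ (Finset.single_le_sum (f := fun j : Fin ρ =>
      coeff (mu1 i p) (monomial (mu1 j p) 1)) (fun _ _ => Nat.zero_le _) (Finset.mem_univ i))
    simp
  refine le_trans (Nat.mul_le_mul hg h2) (Finset.single_le_sum
    (f := fun x : (Par n ρ →₀ ℕ) × (Par n ρ →₀ ℕ) =>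
    coeff x.1 (img ℕ ρ (∑ i, g i)) * coeff x.2 (ent ℕ ρ p)) (fun _ _ => Nat.zero_le _) h1)

lemma single_add' (i : Fin ρ) (e e' : Ex n) :
    (Pi.single i (e + e') : Fin ρ → Ex n) = Pi.single i e + Pi.single i e' := by
  funext j
  rw [Pi.add_apply]
  by_cases h : j = i
  · subst h
    rw [Pi.single_eq_same, Pi.single_eq_same, Pi.single_eq_same]
  · rw [Pi.single_eq_of_ne h, Pi.single_eq_of_ne h, Pi.single_eq_of_ne h, add_zero]

lemma single_zero' (i : Fin ρ) : (Pi.single i (0 : Ex n) : Fin ρ → Ex n) = 0 := by
  funext j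
  by_cases h : j = i
  · subst h
    rw [Pi.single_eq_same, Pi.zero_apply]
  · rw [Pi.single_eq_of_ne h, Pi.zero_apply]

lemma good_step2 (i : Fin ρ) (e : Ex n) :
    ∀ g : Fin ρ → Ex n, Good g → Good (g + Pi.single i e) := by
  have h0 : ∀ g : Fin ρ → Ex n, Good g → Good (g + Pi.single i (0 : Ex n)) := by
    intro g hg
    rw [single_zero', add_zero]
    exact hg
  have h1 : ∀ (e : Ex n) (p : Fin n × Fin n),
      (∀ g : Fin ρ → Ex n, Good g → Good (g + Pi.single i e)) →
      ∀ g : Fin ρ → Ex n, Good g → Good (g + Pi.single i (e + Finsupp.single p 1)) := by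
    intro e p he g hg
    rw [single_add', ← add_assoc]
    exact good_step _ i p (he g hg)
  exact ex_induction h0 h1 e

/-- over the naturals each decomposition of `e` contributes -/
lemma one_le_coeff (f : Fin ρ → Ex n) :
    1 ≤ coeff (mu f) (img ℕ ρ (∑ i, f i)) := by
  classical
  have step3 : ∀ s : Finset (Fin ρ), Good (∑ i ∈ s, Pi.single i (f i) : Fin ρ → Ex n) := by
    intro s
    induction s using Finset.induction_on with
    | empty =>
      rw [Finset.sum_empty]
      exact good_zero
    | insert i s hi ih =>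
      rw [Finset.sum_insert hi, add_comm]
      exact good_step2 i (f i) _ ih
  have h := step3 Finset.univ
  rw [Finset.univ_sum_single] at h
  exact h

/-- the coefficient is nonzero in characteristic zero -/
lemma coeff_ne_zero (K : Type*) [Field K] [CharZero K] (f : Fin ρ → Ex n) :
    coeff (mu f) (img K ρ (∑ i, f i)) ≠ 0 := by
  have h : img K ρ (∑ i, f i) = map (Nat.castRingHom K) (img ℕ ρ (∑ i, f i)) := by
    unfold img
    rw [Finsupp.prod, Finsupp.prod, map_prod]
    refine Finset.prod_congr rfl fun p _ => ?_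
    rw [map_pow]
    congr 1
    unfold ent
    rw [map_sum]
    refine Finset.sum_congr rfl fun i _ => ?_
    rw [map_mul, map_X, map_X]
  rw [h, coeff_map]
  have h1 := one_le_coeff f
  simp only [eq_natCast, ne_eq, Nat.cast_eq_zero]
  omega

/-- `e` is a sum of `ρ` chain supported matrices -/
def IsChainSum (ρ : ℕ) (e : Ex n) : Prop :=
  ∃ f : Fin ρ → Ex n, (∀ i, Chain fun a b => f i (a, b)) ∧ ∑ i, f i = e

lemma mu_apply_inl (f : Fin ρ → Ex n) (i : Fin ρ) (a : Fin n) :
    mu f (i, Sum.inl a) = ∑ b, f i (a, b) := by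
  classical
  unfold mu
  rw [Finsupp.finsetSum_apply, Finset.sum_eq_single i]
  · rw [Finsupp.sum_fintype _ _ (by simp), Finsupp.finsetSum_apply, Fintype.sum_prod_type,
      Finset.sum_eq_single a]
    · refine Finset.sum_congr rfl fun b _ => ?_
      simp [mu1]
    · intro a' _ ha'
      refine Finset.sum_eq_zero fun b _ => ?_
      simp [mu1, ha']
    · simp
  · intro j _ hj
    rw [Finsupp.sum_fintype _ _ (by simp), Finsupp.finsetSum_apply]
    refine Finset.sum_eq_zero fun p _ => ?_
    simp [mu1, hj]
  · simp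

lemma mu_apply_inr (f : Fin ρ → Ex n) (i : Fin ρ) (b : Fin n) :
    mu f (i, Sum.inr b) = ∑ a, f i (a, b) := by
  classical
  unfold mu
  rw [Finsupp.finsetSum_apply, Finset.sum_eq_single i]
  · rw [Finsupp.sum_fintype _ _ (by simp), Finsupp.finsetSum_apply, Fintype.sum_prod_type_right,
      Finset.sum_eq_single b]
    · refine Finset.sum_congr rfl fun a _ => ?_
      simp [mu1]
    · intro b' _ hb'
      refine Finset.sum_eq_zero fun a _ => ?_
      simp [mu1, hb']
    · simp
  · intro j _ hj
    rw [Finsupp.sum_fintype _ _ (by simp), Finsupp.finsetSum_apply]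
    refine Finset.sum_eq_zero fun p _ => ?_
    simp [mu1, hj]
  · simp

/-- the substitution -/
noncomputable def phi (K : Type*) [Field K] (n ρ : ℕ) :
    MvPolynomial (Fin n × Fin n) K →ₐ[K] MvPolynomial (Par n ρ) K :=
  aeval fun p => ent K ρ p

lemma phi_monomial (K : Type*) [Field K] (e : Ex n) (c : K) :
    phi K n ρ (monomial e c) = C c * img K ρ e := by
  unfold phi img
  rw [aeval_monomial]
  rfl

/-- a polynomial all of whose exponents are sums of `ρ` chains and that vanishes on the sums of
`ρ` rank one matrices is zero -/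
theorem eq_zero_of_phi (K : Type*) [Field K] [CharZero K] (g : MvPolynomial (Fin n × Fin n) K)
    (hg : ∀ e ∈ g.support, IsChainSum ρ e) (h0 : phi K n ρ g = 0) : g = 0 := by
  classical
  by_contra hne
  have hsup : g.support.Nonempty := support_nonempty.2 hne
  let w : Ex n → ℕ := fun e => W fun a b => e (a, b)
  obtain ⟨e, he, hmin⟩ := Finset.exists_min_image g.support w hsup
  obtain ⟨f, hf, hfe⟩ := hg e he
  have hcoef : coeff (mu f) (phi K n ρ g) = coeff e g * coeff (mu f) (img K ρ e) := by
    conv_lhs => rw [g.as_sum, map_sum, coeff_sum]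
    rw [Finset.sum_eq_single e]
    · rw [phi_monomial, coeff_C_mul]
    · intro e' he' hee'
      rw [phi_monomial, coeff_C_mul]
      by_contra hc
      have hc' : mu f ∈ (img K ρ e').support := by
        rw [mem_support_iff]
        exact fun hh => hc (by rw [hh, mul_zero])
      obtain ⟨f', hf'1, hf'2⟩ := exists_of_mem_support K e' _ hc'
      have hmarg : ∀ i, SameMarg (fun a b => f i (a, b)) (fun a b => f' i (a, b)) := by
        intro i
        refine ⟨fun a => ?_, fun b => ?_⟩
        · show ∑ b, f i (a, b) = ∑ b, f' i (a, b)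
          rw [← mu_apply_inl f, ← mu_apply_inl f', hf'2]
        · show ∑ a, f i (a, b) = ∑ a, f' i (a, b)
          rw [← mu_apply_inr f, ← mu_apply_inr f', hf'2]
      have hw : ∀ (f : Fin ρ → Ex n) (e : Ex n), ∑ i, f i = e →
          w e = ∑ i, W fun a b => f i (a, b) := by
        intro f e he
        show W (fun a b => e (a, b)) = _
        rw [← W_sum]
        congr 1
        funext a b
        rw [← he, Finsupp.finsetSum_apply]
      have h1 : ∀ i ∈ (univ : Finset (Fin ρ)), W (fun a b => f' i (a, b)) ≤
          W (fun a b => f i (a, b)) := fun i _ => W_le_of_chain (hf i) (hmarg i)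
      have h2 : w e ≤ w e' := hmin e' he'
      rw [hw f e hfe, hw f' e' hf'1] at h2
      have h3 := (Finset.sum_eq_sum_iff_of_le h1).1 (le_antisymm (Finset.sum_le_sum h1) h2)
      have h4 : ∀ i, f' i = f i := by
        intro i
        have h5 := eq_of_W_eq (hf i) (hmarg i) (h3 i (Finset.mem_univ _)).ge
        ext ⟨a, b⟩
        exact congrFun (congrFun h5 a) b
      apply hee'
      rw [← hf'1, ← hfe]
      exact Finset.sum_congr rfl fun i _ => h4 i
    · intro hh
      exact absurd he hh
  rw [h0, coeff_zero] at hcoef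
  have h5 : coeff (mu f) (img K ρ e) ≠ 0 := by
    rw [← hfe]
    exact coeff_ne_zero K f
  exact mul_ne_zero (mem_support_iff.1 he) h5 hcoef.symm

end MP1c6e58.CAT
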