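import Mathlib
import Pool.Agent.Work.MP_1c6e58_ag.CAT.Indep

/-!
Lower bound for the Hilbert-Samuel function at the origin of an ideal whose members vanish on the
sums of `ρ` rank one matrices.
-/

namespace MP1c6e58.CAT

open Finset MvPolynomial

variable {n ρ : ℕ}

lemma degree_mu (f : Fin ρ → Ex n) : (mu f).degree = 2 * (∑ i, f i).degree := by
  classical
  rw [Finsupp.degree_eq_sum, Finsupp.degree_eq_sum, Fintype.sum_prod_type]
  simp_rw [Fintype.sum_sum_type, mu_apply_inl, mu_apply_inr]
  rw [Fintype.sum_prod_type]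
  simp_rw [Finsupp.finsetSum_apply]
  rw [Finset.sum_add_distrib, two_mul]
  congr 1
  · rw [Finset.sum_comm]
    refine Finset.sum_congr rfl fun a _ => ?_
    rw [Finset.sum_comm]
  · rw [Finset.sum_comm]
    rw [Finset.sum_comm (s := (Finset.univ : Finset (Fin n))) (t := (Finset.univ : Finset (Fin n)))
      (f := fun a b => ∑ i, f i (a, b))]
    refine Finset.sum_congr rfl fun b _ => ?_
    rw [Finset.sum_comm]

/-- a polynomial of degree at most `t` whose exponents are chain sums, congruent modulo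
`m ^ (t+1)` to a polynomial vanishing on the sums of `ρ` rank one matrices, is zero -/
theorem eq_zero_of_mem (K : Type*) [Field K] [CharZero K] (t : ℕ)
    (h g : MvPolynomial (Fin n × Fin n) K)
    (hh : ∀ e ∈ h.support, IsChainSum ρ e ∧ e.degree ≤ t)
    (hg : phi K n ρ g = 0) (hgh : h - g ∈ idealOfVars (Fin n × Fin n) K ^ (t + 1)) : h = 0 := by
  classical
  apply eq_zero_of_phi (ρ := ρ) K h fun e he => (hh e he).1
  have h1 : phi K n ρ h = phi K n ρ (h - g) := by
    rw [map_sub, hg, sub_zero]
  have h2 : phi K n ρ (h - g) ∈ idealOfVars (Par n ρ) K ^ (2 * (t + 1)) := by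
    have h3 : Ideal.map (phi K n ρ).toRingHom (idealOfVars (Fin n × Fin n) K) ≤
        idealOfVars (Par n ρ) K ^ 2 := by
      unfold idealOfVars
      rw [Ideal.map_span, Ideal.span_le]
      rintro _ ⟨_, ⟨p, rfl⟩, rfl⟩
      show phi K n ρ (X p) ∈ _
      unfold phi
      rw [aeval_X]
      unfold ent
      rw [SetLike.mem_coe, pow_two]
      refine Ideal.sum_mem _ fun i _ => ?_
      exact Ideal.mul_mem_mul (Ideal.subset_span ⟨_, rfl⟩) (Ideal.subset_span ⟨_, rfl⟩)
    have h4 : (phi K n ρ).toRingHom (h - g) ∈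
        Ideal.map (phi K n ρ).toRingHom (idealOfVars (Fin n × Fin n) K ^ (t + 1)) :=
      Ideal.mem_map_of_mem _ hgh
    rw [Ideal.map_pow] at h4
    have h5 := Ideal.pow_right_mono h3 (t + 1) h4
    rw [← pow_mul] at h5
    exact h5
  rw [h1]
  ext m
  rw [coeff_zero]
  by_cases hm : m.degree < 2 * (t + 1)
  · exact (mem_pow_idealOfVars_iff' _ _).1 h2 m hm
  · rw [← h1]
    conv_lhs => rw [h.as_sum, map_sum, coeff_sum]
    refine Finset.sum_eq_zero fun e he => ?_
    rw [phi_monomial, coeff_C_mul]
    by_contra hc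
    have hc' : m ∈ (img K ρ e).support := by
      rw [mem_support_iff]
      exact fun hh => hc (by rw [hh, mul_zero])
    obtain ⟨f, hf1, hf2⟩ := exists_of_mem_support K e _ hc'
    have h6 := degree_mu f
    rw [hf2, hf1] at h6
    have h7 := (hh e he).2
    omega

end MP1c6e58.CAT
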