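import Mathlib
import Pool.Agent.Work.MP_1c6e58_ag.CAT.Hilb

/-!
Levels of a set of cells with respect to antidiagonal chains.
-/

namespace MP1c6e58.CAT

open Finset MvPolynomial

variable {n ρ : ℕ}

/-- `q` is strictly south-west of `p` -/
def SW (q p : Fin n × Fin n) : Prop := p.1 < q.1 ∧ q.2 < p.2

instance (q p : Fin n × Fin n) : Decidable (SW q p) := by unfold SW; infer_instance

/-- the cells of `S` that start an antidiagonal chain of length `k + 1` going south-west -/
def EE (S : Finset (Fin n × Fin n)) : ℕ → Finset (Fin n × Fin n)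
  | 0 => S
  | k + 1 => (EE S k).filter fun p => ∃ q ∈ EE S k, SW q p

lemma EE_subset (S : Finset (Fin n × Fin n)) (k : ℕ) : EE S (k + 1) ⊆ EE S k :=
  Finset.filter_subset _ _

lemma EE_antitone (S : Finset (Fin n × Fin n)) {k l : ℕ} (h : k ≤ l) : EE S l ⊆ EE S k := by
  induction l, h using Nat.le_induction with
  | base => exact subset_rfl
  | succ l _ ih => exact (EE_subset S l).trans ih

/-- each exponent without long antidiagonal chains is a sum of chains -/
lemma isChainSum_of_EE (e : Ex n) (h : EE e.support ρ = ∅) : IsChainSum ρ e := by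
  classical
  refine ⟨fun i => e.filter fun p => p ∈ EE e.support i ∧ p ∉ EE e.support (i + 1), ?_, ?_⟩
  · intro i a b c d hac hdb hab
    by_contra hcd
    simp only [Finsupp.filter_apply] at hab hcd
    have h1 : ((a, b) : Fin n × Fin n) ∈ EE e.support i ∧
        ((a, b) : Fin n × Fin n) ∉ EE e.support (i + 1) := by
      by_contra hh
      exact hab (if_neg hh)
    have h2 : ((c, d) : Fin n × Fin n) ∈ EE e.support i ∧
        ((c, d) : Fin n × Fin n) ∉ EE e.support (i + 1) := by
      by_contra hh
      exact hcd (if_neg hh)
    apply h1.2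
    unfold EE
    rw [Finset.mem_filter]
    exact ⟨h1.1, (c, d), h2.1, hac, hdb⟩
  · ext p
    rw [Finsupp.finsetSum_apply]
    simp only [Finsupp.filter_apply]
    by_cases hp : p ∈ e.support
    · -- the level of `p`
      have hex : ∃ k, p ∉ EE e.support k := ⟨ρ, by rw [h]; simp⟩
      obtain ⟨k, hk, hk'⟩ : ∃ k, p ∉ EE e.support k ∧ ∀ j < k, p ∈ EE e.support j :=
        ⟨Nat.find hex, Nat.find_spec hex, fun j hj => by
          have := Nat.find_min hex hj
          simpa using this⟩
      have hkρ : k ≤ ρ := by
        by_contra hlt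
        have := hk' ρ (by omega)
        rw [h] at this
        simp at this
      have hk0 : 0 < k := by
        rcases Nat.eq_zero_or_pos k with h0 | h0
        · subst h0
          exact absurd hp hk
        · exact h0
      rw [Finset.sum_eq_single (⟨k - 1, by omega⟩ : Fin ρ)]
      · rw [if_pos]
        refine ⟨hk' _ (by simp only; omega), ?_⟩
        have : k - 1 + 1 = k := by omega
        simp only [this]
        exact hk
      · intro j _ hj
        rw [if_neg]
        rintro ⟨h1, h2⟩
        apply hj
        apply Fin.ext
        simp only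
        rcases lt_trichotomy (j : ℕ) (k - 1) with h3 | h3 | h3
        · exact absurd (hk' (j + 1) (by omega)) h2
        · exact h3
        · exact absurd (EE_antitone e.support (show k ≤ (j : ℕ) by omega) h1) hk
      · simp
    · rw [Finsupp.notMem_support_iff] at hp
      simp [hp]

/-- a cell in `EE S k` starts a chain of length `k + 1` -/
lemma exists_chain (S : Finset (Fin n × Fin n)) (k : ℕ) (p : Fin n × Fin n) (hp : p ∈ EE S k) :
    ∃ r c : ℕ → Fin n, r 0 = p.1 ∧ c 0 = p.2 ∧ (∀ i ≤ k, (r i, c i) ∈ S) ∧
      ∀ i < k, r i < r (i + 1) ∧ c (i + 1) < c i := by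
  induction k generalizing p with
  | zero => exact ⟨fun _ => p.1, fun _ => p.2, rfl, rfl, fun i _ => hp, fun i hi => by omega⟩
  | succ k ih =>
    unfold EE at hp
    rw [Finset.mem_filter] at hp
    obtain ⟨hp1, q, hq, hqp⟩ := hp
    obtain ⟨r, c, hr0, hc0, hS, hlt⟩ := ih q hq
    refine ⟨fun i => if i = 0 then p.1 else r (i - 1), fun i => if i = 0 then p.2 else c (i - 1),
      by simp, by simp, ?_, ?_⟩
    · intro i hi
      by_cases h0 : i = 0
      · subst h0
        simp only [if_true]
        exact EE_antitone S (Nat.zero_le k) hp1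
      · simp only [h0, if_false]
        exact hS _ (by omega)
    · intro i hi
      by_cases h0 : i = 0
      · subst h0
        simp only [if_true, Nat.zero_add, Nat.one_ne_zero, if_false, Nat.sub_self, hr0, hc0]
        exact hqp
      · have h1 : i + 1 - 1 = (i - 1) + 1 := by omega
        simp only [h0, if_false, Nat.succ_ne_zero, h1]
        exact hlt _ (by omega)

end MP1c6e58.CAT
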