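import Mathlib
import Pool.Agent.Work.MP_1c6e58_ag.CAT.Lev
import Pool.Agent.Work.MP_1c6e58_ag.SH.Defs

/-!
Straightening: modulo the minors of size `ρ + 1` each monomial in the strictly lower triangular
entries is a combination of monomials without antidiagonal chains of length `ρ + 1`.
-/

namespace MP1c6e58.CAT

open Finset MvPolynomial Pool.Agent.SH

variable {n ρ : ℕ}

/-- exponents in the strictly lower triangular entries as exponents in all entries -/
noncomputable def up (e : Co n →₀ ℕ) : Ex n := e.mapDomain Subtype.val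

lemma up_apply (e : Co n →₀ ℕ) (p : Co n) : up e p.1 = e p :=
  Finsupp.mapDomain_apply Subtype.val_injective _ _

lemma up_apply_of_not (e : Co n →₀ ℕ) (p : Fin n × Fin n) (h : ¬ p.2 < p.1) : up e p = 0 := by
  apply Finsupp.mapDomain_of_notMem_range
  rintro ⟨q, hq⟩
  exact h (hq ▸ q.2)

/-- exponents without antidiagonal chains of length `ρ + 1` -/
def Std (ρ : ℕ) (e : Co n →₀ ℕ) : Prop := EE (up e).support ρ = ∅

/-- the weight -/
def wt (e : Co n →₀ ℕ) : ℕ := e.sum fun p k => k * ((p.1.1 : ℕ) * (p.1.2 : ℕ))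

lemma wt_add (e e' : Co n →₀ ℕ) : wt (e + e') = wt e + wt e' := by
  unfold wt
  rw [Finsupp.sum_add_index' (by simp) (by intro a b c; exact add_mul _ _ _)]

lemma wt_single (p : Co n) : wt (Finsupp.single p 1) = (p.1.1 : ℕ) * (p.1.2 : ℕ) := by
  unfold wt
  simp

lemma wt_sum {ι : Type*} (s : Finset ι) (f : ι → Co n →₀ ℕ) :
    wt (∑ i ∈ s, f i) = ∑ i ∈ s, wt (f i) := by
  classical
  induction s using Finset.induction_on with
  | empty => simp [wt]
  | insert i s hi ih => rw [Finset.sum_insert hi, Finset.sum_insert hi, wt_add, ih]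

lemma wt_le (e : Co n →₀ ℕ) : wt e ≤ e.degree * (n * n) := by
  unfold wt
  rw [Finsupp.degree_eq_sum, Finsupp.sum_fintype _ _ (by simp), Finset.sum_mul]
  refine Finset.sum_le_sum fun p _ => ?_
  exact Nat.mul_le_mul_left _ (Nat.mul_le_mul p.1.1.isLt.le p.1.2.isLt.le)

/-- the entries of a strictly lower triangular matrix of variables -/
noncomputable def xx (a b : Fin n) : MvPolynomial (Co n) ℂ :=
  if h : b < a then X ⟨(a, b), h⟩ else 0

/-- chains of cells: rows go down, columns go left, all below the diagonal -/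
structure IsCh (ρ : ℕ) (r c : Fin (ρ + 1) → Fin n) : Prop where
  hr : StrictMono r
  hc : StrictAnti c
  hl : ∀ i j, c i < r j

lemma isCh_of_chain (r c : ℕ → Fin n) (h : ∀ i < ρ, r i < r (i + 1) ∧ c (i + 1) < c i)
    (h0 : c 0 < r 0) : IsCh ρ (fun i : Fin (ρ + 1) => r i) (fun i : Fin (ρ + 1) => c i) := by
  have hr : StrictMono (fun i : Fin (ρ + 1) => r i) := by
    rw [Fin.strictMono_iff_lt_succ]
    intro i
    exact (h i i.2).1
  have hc : StrictAnti (fun i : Fin (ρ + 1) => c i) := by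
    rw [Fin.strictAnti_iff_succ_lt]
    intro i
    exact (h i i.2).2
  refine ⟨hr, hc, fun i j => ?_⟩
  calc c i ≤ c 0 := hc.antitone (Fin.zero_le i)
    _ < r 0 := h0
    _ ≤ r j := hr.monotone (Fin.zero_le j)

/-- rearrangement -/
lemma rearr (r c : Fin (ρ + 1) → Fin n) (h : IsCh ρ r c) (σ : Equiv.Perm (Fin (ρ + 1)))
    (hσ : σ ≠ 1) : ∑ i, ((r i : ℕ) * (c i : ℕ)) < ∑ i, ((r (σ i) : ℕ) * (c i : ℕ)) := by
  have hav : Antivary (fun i => (r i : ℕ)) (fun i => (c i : ℕ)) := by
    intro i j hij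
    have h1 : c i < c j := hij
    have h2 : j < i := h.hc.lt_iff_gt.1 h1
    exact h.hr.monotone h2.le
  have h2 := (hav.sum_smul_lt_sum_comp_perm_smul_iff (σ := σ)).2
  simp only [smul_eq_mul] at h2
  apply h2
  intro hA
  apply hσ
  have hmono : StrictMono σ := by
    apply Monotone.strictMono_of_injective _ σ.injective
    intro i j hij
    rcases hij.eq_or_lt with rfl | hij'
    · exact le_rfl
    · have h3 : c j < c i := h.hc hij'
      have h4 : (r (σ i) : ℕ) ≤ r (σ j) := hA h3
      exact h.hr.le_iff_le.1 h4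
  have h5 : (⟨σ, hmono.le_iff_le⟩ : Fin (ρ + 1) ≃o Fin (ρ + 1)) = OrderIso.refl _ :=
    Subsingleton.elim _ _
  ext i
  have h6 := congrArg (fun f : Fin (ρ + 1) ≃o Fin (ρ + 1) => f i) h5
  exact congrArg Fin.val h6

/-- the exponent of the term of the minor for `σ` -/
noncomputable def tt {r c : Fin (ρ + 1) → Fin n} (h : IsCh ρ r c) (σ : Equiv.Perm (Fin (ρ + 1))) :
    Co n →₀ ℕ :=
  ∑ i, Finsupp.single (⟨(r (σ i), c i), h.hl i (σ i)⟩ : Co n) 1

lemma degree_tt {r c : Fin (ρ + 1) → Fin n} (h : IsCh ρ r c) (σ : Equiv.Perm (Fin (ρ + 1))) :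
    (tt h σ).degree = ρ + 1 := by
  unfold tt
  rw [map_sum]
  simp

lemma wt_tt {r c : Fin (ρ + 1) → Fin n} (h : IsCh ρ r c) (σ : Equiv.Perm (Fin (ρ + 1))) :
    wt (tt h σ) = ∑ i, ((r (σ i) : ℕ) * (c i : ℕ)) := by
  unfold tt
  rw [wt_sum]
  refine Finset.sum_congr rfl fun i _ => ?_
  rw [wt_single]

lemma det_eq {r c : Fin (ρ + 1) → Fin n} (h : IsCh ρ r c) :
    (Matrix.of fun i j => (xx (r i) (c j) : MvPolynomial (Co n) ℂ)).det =
      ∑ σ : Equiv.Perm (Fin (ρ + 1)), Equiv.Perm.sign σ • monomial (tt h σ) (1 : ℂ) := by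
  rw [Matrix.det_apply]
  refine Finset.sum_congr rfl fun σ _ => ?_
  congr 1
  unfold tt
  rw [monomial_sum_one]
  refine Finset.prod_congr rfl fun i _ => ?_
  rw [Matrix.of_apply]
  unfold xx
  rw [dif_pos (h.hl i (σ i))]
  rfl

/-- straightening -/
theorem straight (I : Ideal (MvPolynomial (Co n) ℂ))
    (hI : ∀ r c : Fin (ρ + 1) → Fin n, IsCh ρ r c →
      (Matrix.of fun i j => (xx (r i) (c j) : MvPolynomial (Co n) ℂ)).det ∈ I)
    (e : Co n →₀ ℕ) :
    ∃ g ∈ Submodule.span ℂ {m : MvPolynomial (Co n) ℂ | ∃ e' : Co n →₀ ℕ, Std ρ e' ∧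
      e'.degree = e.degree ∧ m = monomial e' 1}, monomial e 1 - g ∈ I := by
  classical
  induction h : e.degree * (n * n) - wt e using Nat.strong_induction_on generalizing e with
  | _ N ih =>
  by_cases hstd : Std ρ e
  · refine ⟨monomial e 1, Submodule.subset_span ⟨e, hstd, rfl, rfl⟩, ?_⟩
    rw [sub_self]
    exact I.zero_mem
  · unfold Std at hstd
    obtain ⟨p, hp⟩ := Finset.nonempty_iff_ne_empty.2 hstd
    obtain ⟨r, c, _, _, hS, hlt⟩ := exists_chain _ _ _ hp
    have hlow : ∀ i ≤ ρ, c i < r i := by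
      intro i hi
      by_contra hh
      have := hS i hi
      rw [Finsupp.mem_support_iff] at this
      exact this (up_apply_of_not e _ hh)
    have hch : IsCh ρ (fun i : Fin (ρ + 1) => r i) (fun i : Fin (ρ + 1) => c i) :=
      isCh_of_chain r c hlt (hlow 0 (Nat.zero_le _))
    -- the exponent of the main term is at most `e`
    have hte : tt hch 1 ≤ e := by
      intro q
      unfold tt
      rw [Finsupp.finsetSum_apply]
      by_cases hq : ∃ i : Fin (ρ + 1), (⟨(r i, c i), hch.hl i i⟩ : Co n) = q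
      · obtain ⟨i, hi⟩ := hq
        rw [Finset.sum_eq_single i]
        · simp only [Equiv.Perm.coe_one, id_eq]
          rw [Finsupp.single_apply, if_pos hi]
          have h1 := hS i (Nat.lt_succ_iff.1 i.2)
          rw [Finsupp.mem_support_iff] at h1
          have h2 : up e ((⟨(r i, c i), hch.hl i i⟩ : Co n)).1 = e ⟨(r i, c i), hch.hl i i⟩ :=
            up_apply e _
          rw [hi] at h2
          have h3 : up e (r i, c i) = up e q.1 := by rw [← hi]
          rw [h3, h2] at h1
          omega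
        · intro j _ hj
          simp only [Equiv.Perm.coe_one, id_eq]
          rw [Finsupp.single_apply, if_neg]
          intro hjq
          apply hj
          rw [← hi] at hjq
          have h3 := congrArg (fun x : Co n => x.1.1) hjq
          exact hch.hr.injective h3
        · simp
      · rw [Finset.sum_eq_zero]
        · exact Nat.zero_le _
        · intro i _
          simp only [Equiv.Perm.coe_one, id_eq]
          rw [Finsupp.single_apply, if_neg]
          exact fun hh => hq ⟨i, hh⟩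
    have he0 : e - tt hch 1 + tt hch 1 = e := tsub_add_cancel_of_le hte
    set e0 := e - tt hch 1 with he0def
    have hdeg : ∀ σ, (e0 + tt hch σ).degree = e.degree := by
      intro σ
      rw [map_add, degree_tt, ← degree_tt hch 1, ← map_add, he0]
    have hσ : ∀ σ : Equiv.Perm (Fin (ρ + 1)), σ ≠ 1 → ∃ g ∈ Submodule.span ℂ
        {m : MvPolynomial (Co n) ℂ | ∃ e' : Co n →₀ ℕ, Std ρ e' ∧
        e'.degree = e.degree ∧ m = monomial e' 1}, monomial (e0 + tt hch σ) 1 - g ∈ I := by
      intro σ hne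
      have h1 : wt e < wt (e0 + tt hch σ) := by
        conv_lhs => rw [← he0]
        rw [wt_add, wt_add, wt_tt, wt_tt]
        have := rearr _ _ hch σ hne
        simp only [Equiv.Perm.coe_one, id_eq]
        omega
      have h2 := wt_le (e0 + tt hch σ)
      rw [hdeg σ] at h2
      have h3 := ih ((e0 + tt hch σ).degree * (n * n) - wt (e0 + tt hch σ)) (by
        rw [hdeg σ, ← h]; omega) (e0 + tt hch σ) rfl
      rw [hdeg σ] at h3
      exact h3
    choose! G hG1 hG2 using hσ
    refine ⟨- ∑ σ ∈ (univ : Finset (Equiv.Perm (Fin (ρ + 1)))).erase 1,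
      Equiv.Perm.sign σ • G σ, ?_, ?_⟩
    · refine Submodule.neg_mem _ (Submodule.sum_mem _ fun σ hσ => ?_)
      have h1 := hG1 σ (Finset.ne_of_mem_erase hσ)
      rcases Int.units_eq_one_or (Equiv.Perm.sign σ) with h2 | h2
      · rw [h2, one_smul]; exact h1
      · rw [h2, Units.neg_smul, one_smul]; exact Submodule.neg_mem _ h1
    · have h1 : monomial e0 (1 : ℂ) * (Matrix.of fun i j =>
          (xx (r (i : Fin (ρ + 1))) (c (j : Fin (ρ + 1))) : MvPolynomial (Co n) ℂ)).det ∈ I :=
        I.mul_mem_left _ (hI _ _ hch)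
      have h2 : monomial e0 (1 : ℂ) * (Matrix.of fun i j =>
          (xx (r (i : Fin (ρ + 1))) (c (j : Fin (ρ + 1))) : MvPolynomial (Co n) ℂ)).det =
          ∑ σ : Equiv.Perm (Fin (ρ + 1)), Equiv.Perm.sign σ • monomial (e0 + tt hch σ) (1 : ℂ) := by
        rw [det_eq hch, Finset.mul_sum]
        refine Finset.sum_congr rfl fun σ _ => ?_
        rw [mul_smul_comm, monomial_mul, one_mul]
      rw [h2, ← Finset.add_sum_erase _ _ (Finset.mem_univ (1 : Equiv.Perm (Fin (ρ + 1)))),
        Equiv.Perm.sign_one, one_smul, he0] at h1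
      have h3 : ∑ σ ∈ (univ : Finset (Equiv.Perm (Fin (ρ + 1)))).erase 1,
          Equiv.Perm.sign σ • (monomial (e0 + tt hch σ) (1 : ℂ) - G σ) ∈ I := by
        refine Ideal.sum_mem _ fun σ hσ => ?_
        have h4 := hG2 σ (Finset.ne_of_mem_erase hσ)
        rcases Int.units_eq_one_or (Equiv.Perm.sign σ) with h5 | h5
        · rw [h5, one_smul]; exact h4
        · rw [h5, Units.neg_smul, one_smul]; exact I.neg_mem h4
      have h6 := I.sub_mem h1 h3
      have h7 : monomial e (1 : ℂ) - -∑ σ ∈ (univ : Finset (Equiv.Perm (Fin (ρ + 1)))).erase 1,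
          Equiv.Perm.sign σ • G σ = monomial e (1 : ℂ) +
          ∑ σ ∈ (univ : Finset (Equiv.Perm (Fin (ρ + 1)))).erase 1,
          Equiv.Perm.sign σ • monomial (e0 + tt hch σ) (1 : ℂ) -
          ∑ σ ∈ (univ : Finset (Equiv.Perm (Fin (ρ + 1)))).erase 1,
          Equiv.Perm.sign σ • (monomial (e0 + tt hch σ) (1 : ℂ) - G σ) := by
        simp only [smul_sub, Finset.sum_sub_distrib]
        ring
      rw [h7]
      exact h6

end MP1c6e58.CAT
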