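import Mathlib
import Pool.Agent.Work.MP_1c6e58_ag.CAT.Straight

/-!
The Hilbert-Samuel function of a set of strictly lower triangular matrices that contains the lower
parts of the sums of `ρ` rank one matrices and on which the minors of size `ρ + 1` vanish.
-/

namespace MP1c6e58.CAT

open Finset MvPolynomial Pool.Agent.SH

variable {n ρ : ℕ}

/-- the strictly lower part of a sum of `ρ` rank one matrices -/
def lowS (u v : Fin ρ → Fin n → ℂ) : Co n → ℂ := fun p => ∑ i, u i p.1.1 * v i p.1.2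

/-- the two properties of the set -/
structure Good2 (ρ : ℕ) (Z : Set (Co n → ℂ)) : Prop where
  low : ∀ u v : Fin ρ → Fin n → ℂ, lowS u v ∈ Z
  minor : ∀ r c : Fin (ρ + 1) → Fin n, IsCh ρ r c →
    (Matrix.of fun i j => (xx (r i) (c j) : MvPolynomial (Co n) ℂ)).det ∈ vanishingIdeal ℂ Z

lemma degree_up (e : Co n →₀ ℕ) : (up e).degree = e.degree := by
  unfold up
  induction e using Finsupp.induction_linear with
  | zero => simp
  | add f g hf hg => rw [Finsupp.mapDomain_add, map_add, map_add, hf, hg]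
  | single a b => rw [Finsupp.mapDomain_single]; simp

lemma up_injective : Function.Injective (up : (Co n →₀ ℕ) → Ex n) :=
  Finsupp.mapDomain_injective Subtype.val_injective

/-- the substitution kills the members of the ideal -/
lemma phi_rename {Z : Set (Co n → ℂ)} (hZ : Good2 ρ Z) (g : MvPolynomial (Co n) ℂ)
    (hg : g ∈ vanishingIdeal ℂ Z) : phi ℂ n ρ (rename Subtype.val g) = 0 := by
  apply MvPolynomial.funext
  intro x
  rw [map_zero]
  have h1 := (mem_vanishingIdeal_iff.1 hg) _
    (hZ.low (fun i a => x (i, Sum.inl a)) (fun i b => x (i, Sum.inr b)))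
  rw [← h1]
  unfold phi
  rw [aeval_rename]
  have h2 : (eval x) ((aeval ((fun p => ent ℂ ρ p) ∘ Subtype.val)) g) =
      (aeval x : MvPolynomial (Par n ρ) ℂ →ₐ[ℂ] ℂ)
        ((aeval ((fun p => ent ℂ ρ p) ∘ Subtype.val)) g) := by
    generalize (aeval ((fun p => ent ℂ ρ p) ∘ Subtype.val)) g = y
    rfl
  rw [h2, ← AlgHom.comp_apply, comp_aeval]
  congr 2
  funext p
  simp only [Function.comp_apply, ent, lowS, map_sum, map_mul, aeval_X]

/-- standard exponents of degree at most `t` -/
def StdT (n ρ t : ℕ) : Type := {e : Co n →₀ ℕ // Std ρ e ∧ e.degree ≤ t}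

/-- a combination of standard monomials of degree at most `t` which lies in `I + m^(t+1)` is
zero -/
lemma eq_zero_of_mem_sup {Z : Set (Co n → ℂ)} (hZ : Good2 ρ Z) (t : ℕ)
    (h : MvPolynomial (Co n) ℂ) (hh : ∀ e ∈ h.support, Std ρ e ∧ e.degree ≤ t)
    (hm : h ∈ vanishingIdeal ℂ Z ⊔ idealOfVars (Co n) ℂ ^ (t + 1)) : h = 0 := by
  classical
  obtain ⟨g, hg, q, hq, hgq⟩ := Submodule.mem_sup.1 hm
  have h1 : rename Subtype.val h = (0 : MvPolynomial (Fin n × Fin n) ℂ) := by
    apply eq_zero_of_mem (ρ := ρ) ℂ t _ (rename Subtype.val g)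
    · intro e he
      rw [support_rename_of_injective Subtype.val_injective, Finset.mem_image] at he
      obtain ⟨e', he', rfl⟩ := he
      have h2 := hh e' he'
      exact ⟨isChainSum_of_EE (up e') h2.1, by
        have := degree_up e'
        unfold up at this
        rw [this]; exact h2.2⟩
    · exact phi_rename hZ g hg
    · rw [← map_sub, ← hgq, add_sub_cancel_left]
      have h3 : Ideal.map (rename Subtype.val : MvPolynomial (Co n) ℂ →ₐ[ℂ] _).toRingHom
          (idealOfVars (Co n) ℂ) ≤ idealOfVars (Fin n × Fin n) ℂ := by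
        unfold idealOfVars
        rw [Ideal.map_span, Ideal.span_le]
        rintro _ ⟨_, ⟨p, rfl⟩, rfl⟩
        show rename Subtype.val (X p) ∈ _
        rw [rename_X]
        exact Ideal.subset_span ⟨_, rfl⟩
      have h4 : (rename Subtype.val : MvPolynomial (Co n) ℂ →ₐ[ℂ] _).toRingHom q ∈
          Ideal.map (rename Subtype.val : MvPolynomial (Co n) ℂ →ₐ[ℂ] _).toRingHom
            (idealOfVars (Co n) ℂ ^ (t + 1)) := Ideal.mem_map_of_mem _ hq
      rw [Ideal.map_pow] at h4
      exact Ideal.pow_right_mono h3 (t + 1) h4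
  exact rename_injective _ Subtype.val_injective (by rw [h1, map_zero])

/-- the class of a standard monomial -/
noncomputable def cls (Z : Set (Co n → ℂ)) (t : ℕ) (e : StdT n ρ t) :
    MvPolynomial (Co n) ℂ ⧸ (vanishingIdeal ℂ Z ⊔ (idealOfVars (Co n) ℂ) ^ (t + 1)) :=
  Ideal.Quotient.mk _ (monomial e.1 1)

lemma cls_li {Z : Set (Co n → ℂ)} (hZ : Good2 ρ Z) (t : ℕ) :
    LinearIndependent ℂ (cls (ρ := ρ) Z t) := by
  classical
  rw [linearIndependent_iff']
  intro s a hs i hi
  have h1 : (∑ e ∈ s, monomial e.1 (a e) : MvPolynomial (Co n) ℂ) ∈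
      vanishingIdeal ℂ Z ⊔ idealOfVars (Co n) ℂ ^ (t + 1) := by
    rw [← Ideal.Quotient.eq_zero_iff_mem, map_sum, ← hs]
    refine Finset.sum_congr rfl fun e _ => ?_
    unfold cls
    have h2 : (monomial e.1 (a e) : MvPolynomial (Co n) ℂ) = a e • monomial e.1 1 := by
      rw [smul_monomial, smul_eq_mul, mul_one]
    rw [h2]
    rfl
  have h2 : ∀ e : Co n →₀ ℕ, coeff e (∑ e ∈ s, monomial e.1 (a e) : MvPolynomial (Co n) ℂ) =
      ∑ e' ∈ s, if e'.1 = e then a e' else 0 := by
    intro e
    rw [coeff_sum]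
    refine Finset.sum_congr rfl fun e' _ => ?_
    rw [coeff_monomial]
  have h3 := eq_zero_of_mem_sup hZ t _ (by
    intro e he
    rw [mem_support_iff, h2] at he
    obtain ⟨e', _, he'⟩ := Finset.exists_ne_zero_of_sum_ne_zero he
    have h4 : e'.1 = e := by
      by_contra hne
      exact he' (if_neg hne)
    rw [← h4]
    exact e'.2) h1
  have h5 := h2 i.1
  rw [h3, coeff_zero, Finset.sum_eq_single i] at h5
  · rw [if_pos rfl] at h5
    exact h5.symm
  · intro e _ he
    rw [if_neg]
    intro hh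
    exact he (Subtype.ext hh)
  · intro hh
    exact absurd hi hh

lemma cls_span {Z : Set (Co n → ℂ)} (hZ : Good2 ρ Z) (t : ℕ) :
    ⊤ ≤ Submodule.span ℂ (Set.range (cls (ρ := ρ) Z t)) := by
  classical
  have key : ∀ e : Co n →₀ ℕ, (Ideal.Quotient.mk (vanishingIdeal ℂ Z ⊔
      (idealOfVars (Co n) ℂ) ^ (t + 1)) (monomial e 1) : _ ⧸ _) ∈
      Submodule.span ℂ (Set.range (cls (ρ := ρ) Z t)) := by
    intro e
    by_cases he : e.degree ≤ t
    · obtain ⟨g, hg, hge⟩ := straight (ρ := ρ) (vanishingIdeal ℂ Z) hZ.minor e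
      have h1 : (Ideal.Quotient.mk (vanishingIdeal ℂ Z ⊔
          (idealOfVars (Co n) ℂ) ^ (t + 1)) (monomial e 1) : _ ⧸ _) =
          Ideal.Quotient.mk _ g := by
        rw [Ideal.Quotient.eq]
        exact Ideal.mem_sup_left hge
      rw [h1]
      have h2 : Submodule.span ℂ {m : MvPolynomial (Co n) ℂ | ∃ e' : Co n →₀ ℕ, Std ρ e' ∧
          e'.degree = e.degree ∧ m = monomial e' 1} ≤
          (Submodule.span ℂ (Set.range (cls (ρ := ρ) Z t))).comap
          (Ideal.Quotient.mkₐ ℂ (vanishingIdeal ℂ Z ⊔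
          (idealOfVars (Co n) ℂ) ^ (t + 1))).toLinearMap := by
        rw [Submodule.span_le]
        rintro _ ⟨e', he1, he2, rfl⟩
        exact Submodule.subset_span ⟨⟨e', he1, by rw [he2]; exact he⟩, rfl⟩
      exact h2 hg
    · have h1 : (Ideal.Quotient.mk (vanishingIdeal ℂ Z ⊔
          (idealOfVars (Co n) ℂ) ^ (t + 1)) (monomial e 1) : _ ⧸ _) = 0 := by
        rw [Ideal.Quotient.eq_zero_iff_mem]
        apply Ideal.mem_sup_right
        rw [mem_pow_idealOfVars_iff']
        intro x hx
        rw [coeff_monomial, if_neg]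
        rintro rfl
        omega
      rw [h1]
      exact Submodule.zero_mem _
  intro y _
  obtain ⟨p, rfl⟩ := Ideal.Quotient.mk_surjective y
  rw [p.as_sum, map_sum]
  refine Submodule.sum_mem _ fun e _ => ?_
  have h2 : (monomial e (coeff e p) : MvPolynomial (Co n) ℂ) = coeff e p • monomial e 1 := by
    rw [smul_monomial, smul_eq_mul, mul_one]
  rw [h2]
  exact Submodule.smul_mem _ _ (key e)

/-- the Hilbert-Samuel function counts the standard exponents -/
theorem Hf_eq {Z : Set (Co n → ℂ)} (hZ : Good2 ρ Z) (t : ℕ) : Hf Z t = Nat.card (StdT n ρ t) := by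
  unfold Hf
  exact Module.finrank_eq_nat_card_basis (Module.Basis.mk (cls_li hZ t) (cls_span hZ t))

end MP1c6e58.CAT
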