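import Mathlib
import Pool.Agent.Work.MP_1c6e58_ag.CAT.HFx

/-!
Counting standard exponents by their supports; the multiplicity is the number of the faces of
maximal size.
-/

namespace MP1c6e58.CAT

open Finset MvPolynomial Pool.Agent.SH

variable {n ρ : ℕ}

/-- exponents with support exactly `F` and degree at most `t` -/
def SupT {σ : Type} (F : Finset σ) (t : ℕ) : Type := {e : σ →₀ ℕ // e.support = F ∧ e.degree ≤ t}

lemma sig_ext {σ : Type} {F : Finset σ} {t : ℕ} (x y : Σ k : Fin t, SupT F k)
    (h1 : x.1 = y.1) (h2 : x.2.1 = y.2.1) : x = y := by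
  obtain ⟨k, e⟩ := x
  obtain ⟨k', e'⟩ := y
  simp only at h1
  subst h1
  congr 1
  exact Subtype.ext h2

instance {σ : Type} [Finite σ] (F : Finset σ) (t : ℕ) : Finite (SupT F t) := by
  classical
  have : Fintype σ := Fintype.ofFinite σ
  have h : Function.Injective (fun (e : SupT F t) (a : σ) => (⟨e.1 a, by
      have h1 := Finsupp.le_degree a e.1
      have h2 := e.2.2
      omega⟩ : Fin (t + 1))) := by
    intro e e' hee
    apply Subtype.ext
    ext a
    exact congrArg Fin.val (congrFun hee a)
  exact Finite.of_injective _ h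

/-- splitting off one variable -/
noncomputable def supTEquiv {σ : Type} [DecidableEq σ] (F : Finset σ) (a : σ) (ha : a ∉ F) (t : ℕ) :
    SupT (insert a F) t ≃ Σ k : Fin t, SupT F k where
  toFun e := ⟨⟨t - e.1 a, by
      have h1 : a ∈ e.1.support := by rw [e.2.1]; exact Finset.mem_insert_self _ _
      rw [Finsupp.mem_support_iff] at h1
      have h2 : e.1 a ≤ e.1.degree := Finsupp.le_degree a e.1
      have h3 := e.2.2
      omega⟩, ⟨e.1.erase a, by
      rw [Finsupp.support_erase, e.2.1, Finset.erase_insert ha], by
      have h2 : (e.1.erase a).degree + e.1 a = e.1.degree := by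
        conv_rhs => rw [← Finsupp.erase_add_single a e.1]
        rw [map_add]
        simp
      have h3 := e.2.2
      simp only
      omega⟩⟩
  invFun x := ⟨x.2.1 + Finsupp.single a (t - x.1), by
      have hpos : t - (x.1 : ℕ) ≠ 0 := by have := x.1.2; omega
      have hxa : x.2.1 a = 0 := by
        rw [← Finsupp.notMem_support_iff, x.2.2.1]; exact ha
      refine ⟨?_, ?_⟩
      · ext b
        rw [Finsupp.mem_support_iff, Finset.mem_insert, Finsupp.add_apply, Finsupp.single_apply]
        have hb : b ∈ F ↔ x.2.1 b ≠ 0 := by rw [← Finsupp.mem_support_iff, x.2.2.1]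
        by_cases hab : a = b
        · subst hab
          simp [hpos]
        · rw [if_neg hab, add_zero, hb]
          constructor
          · exact fun h => Or.inr h
          · rintro (h | h)
            · exact absurd h.symm hab
            · exact h
      · rw [map_add, Finsupp.degree_single]
        have h1 := x.2.2.2
        have h2 := x.1.2
        omega⟩
  left_inv e := by
    apply Subtype.ext
    simp only
    have h2 : e.1 a ≤ e.1.degree := Finsupp.le_degree a e.1
    have h3 := e.2.2
    have h4 : t - (t - e.1 a) = e.1 a := by omega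
    rw [h4, Finsupp.erase_add_single]
  right_inv x := by
    obtain ⟨k, e, he1, he2⟩ := x
    have hxa : e a = 0 := by
      rw [← Finsupp.notMem_support_iff, he1]; exact ha
    apply sig_ext
    · apply Fin.ext
      simp only [Finsupp.add_apply, hxa, Finsupp.single_eq_same]
      have := k.2
      omega
    · simp only
      rw [Finsupp.erase_add, Finsupp.erase_single, add_zero]
      apply Finsupp.erase_of_notMem_support
      rw [he1]
      exact ha

lemma sum_choose (t k : ℕ) : ∑ j : Fin t, (j : ℕ).choose k = t.choose (k + 1) := by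
  induction t with
  | zero => simp
  | succ t ih =>
    rw [Fin.sum_univ_castSucc]
    simp only [Fin.val_castSucc, Fin.val_last]
    rw [ih, Nat.choose_succ_succ, add_comm]

lemma card_supT {σ : Type} [Finite σ] (F : Finset σ) (t : ℕ) :
    Nat.card (SupT F t) = t.choose F.card := by
  classical
  induction F using Finset.induction_on generalizing t with
  | empty =>
    rw [Finset.card_empty, Nat.choose_zero_right, Nat.card_eq_one_iff_unique]
    refine ⟨⟨fun x y => Subtype.ext ?_⟩, ⟨⟨0, by simp, by simp⟩⟩⟩
    rw [Finsupp.support_eq_empty.1 x.2.1, Finsupp.support_eq_empty.1 y.2.1]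
  | insert a F ha ih =>
    rw [Nat.card_congr (supTEquiv F a ha t), Nat.card_sigma, Finset.card_insert_of_notMem ha]
    simp_rw [ih]
    exact sum_choose t _

/-- faces: sets of cells without antidiagonal chains of length `ρ + 1` -/
def IsFace (ρ : ℕ) (F : Finset (Co n)) : Prop := EE (F.map ⟨Subtype.val, Subtype.val_injective⟩) ρ = ∅

instance (F : Finset (Co n)) : Decidable (IsFace ρ F) := by unfold IsFace; infer_instance

lemma std_iff (e : Co n →₀ ℕ) : Std ρ e ↔ IsFace ρ e.support := by
  classical
  unfold Std IsFace
  have h : (up e).support = e.support.map ⟨Subtype.val, Subtype.val_injective⟩ := by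
    unfold up
    rw [Finsupp.mapDomain_support_of_injective Subtype.val_injective, Finset.map_eq_image]
    rfl
  rw [h]

/-- the Hilbert-Samuel function as a sum over the faces -/
lemma card_stdT (n ρ t : ℕ) : Nat.card (StdT n ρ t) =
    ∑ F : {F : Finset (Co n) // IsFace ρ F}, t.choose F.1.card := by
  classical
  have e : StdT n ρ t ≃ Σ F : {F : Finset (Co n) // IsFace ρ F}, SupT F.1 t :=
    { toFun := fun e => ⟨⟨e.1.support, (std_iff e.1).1 e.2.1⟩, ⟨e.1, rfl, e.2.2⟩⟩
      invFun := fun x => ⟨x.2.1, by rw [std_iff, x.2.2.1]; exact x.1.2, x.2.2.2⟩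
      left_inv := fun e => rfl
      right_inv := by
        rintro ⟨⟨F, hF⟩, ⟨e, he1, he2⟩⟩
        simp only at he1
        subst he1
        rfl }
  rw [Nat.card_congr e, Nat.card_sigma]
  refine Finset.sum_congr rfl fun F _ => ?_
  rw [card_supT]

/-- if all faces have at most `D` cells and `N > 0` of them have `D` cells then the multiplicity
is `N` -/
theorem isMult_of_faces {Z : Set (Co n → ℂ)} (hZ : Good2 ρ Z) (D N : ℕ)
    (hD : ∀ F : Finset (Co n), IsFace ρ F → F.card ≤ D)
    (hN : (univ.filter fun F : Finset (Co n) => IsFace ρ F ∧ F.card = D).card = N)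
    (hN0 : 0 < N) : IsMult Z N := by
  classical
  let P : Polynomial ℚ := ∑ F : {F : Finset (Co n) // IsFace ρ F},
    Polynomial.C (1 / (F.1.card.factorial : ℚ)) * descPochhammer ℚ F.1.card
  have hev : ∀ t : ℕ, (Hf Z t : ℚ) = P.eval (t : ℚ) := by
    intro t
    rw [Hf_eq hZ, card_stdT]
    simp only [P]
    rw [Polynomial.eval_finsetSum, Nat.cast_sum]
    refine Finset.sum_congr rfl fun F _ => ?_
    rw [Polynomial.eval_mul, Polynomial.eval_C, descPochhammer_eval_eq_descFactorial,
      Nat.descFactorial_eq_factorial_mul_choose]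
    have h1 : (F.1.card.factorial : ℚ) ≠ 0 := by exact_mod_cast Nat.factorial_ne_zero _
    push_cast
    field_simp
  have hdeg : P.natDegree ≤ D := by
    apply Polynomial.natDegree_sum_le_of_forall_le
    intro F _
    refine (Polynomial.natDegree_C_mul_le _ _).trans ?_
    rw [descPochhammer_natDegree]
    exact hD F.1 F.2
  have hcoef : P.coeff D = (N : ℚ) / (D.factorial : ℚ) := by
    simp only [P]
    rw [Polynomial.finsetSum_coeff]
    have h1 : ∀ F : {F : Finset (Co n) // IsFace ρ F},
        (Polynomial.C (1 / (F.1.card.factorial : ℚ)) * descPochhammer ℚ F.1.card).coeff D =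
        if F.1.card = D then 1 / (D.factorial : ℚ) else 0 := by
      intro F
      rw [Polynomial.coeff_C_mul]
      by_cases h : F.1.card = D
      · rw [if_pos h, h]
        have h2 : (descPochhammer ℚ D).coeff D = 1 := by
          have h3 := (monic_descPochhammer ℚ D).coeff_natDegree
          rw [descPochhammer_natDegree] at h3
          exact h3
        rw [h2, mul_one]
      · rw [if_neg h]
        have h2 : (descPochhammer ℚ F.1.card).natDegree < D := by
          rw [descPochhammer_natDegree]
          exact lt_of_le_of_ne (hD F.1 F.2) h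
        rw [Polynomial.coeff_eq_zero_of_natDegree_lt h2, mul_zero]
    simp_rw [h1]
    rw [← Finset.sum_filter, Finset.sum_const, nsmul_eq_mul, mul_one_div]
    congr 2
    rw [← hN, ← Fintype.card_subtype, ← Fintype.card_subtype]
    apply Fintype.card_congr
    exact (Equiv.subtypeSubtypeEquivSubtypeInter (fun F : Finset (Co n) => IsFace ρ F)
      (fun F : Finset (Co n) => F.card = D))
  have hne : P.coeff D ≠ 0 := by
    rw [hcoef]
    have h1 : (D.factorial : ℚ) ≠ 0 := by exact_mod_cast Nat.factorial_ne_zero _
    have h2 : (N : ℚ) ≠ 0 := by exact_mod_cast hN0.ne'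
    exact div_ne_zero h2 h1
  have hnd : P.natDegree = D := le_antisymm hdeg (Polynomial.le_natDegree_of_ne_zero hne)
  refine ⟨P, ?_, Filter.Eventually.of_forall hev, ?_⟩
  · intro h0
    rw [h0, Polynomial.coeff_zero] at hne
    exact hne rfl
  · rw [Polynomial.leadingCoeff, hnd, hcoef]
    have h1 : (D.factorial : ℚ) ≠ 0 := by exact_mod_cast Nat.factorial_ne_zero _
    field_simp

end MP1c6e58.CAT
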