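import Mathlib
import Pool.Agent.Work.MP_1c6e58_ag.CAT.Count

/-!
Pairs of lattice paths as words; their number.
-/

namespace MP1c6e58.CAT

open Finset

/-- words -/
abbrev Wd := List (Bool × Bool)

/-- the number of walks with `k` steps from `(x, y)` to `(0, 0)` in the quarter plane -/
def cnt : ℕ → ℕ → ℕ → ℕ
  | 0, x, y => if x = 0 ∧ y = 0 then 1 else 0
  | k + 1, x, y => cnt k (x + 1) y + (if 1 ≤ x then cnt k (x - 1) y else 0) +
      (if 1 ≤ x then cnt k (x - 1) (y + 1) else 0) + (if 1 ≤ y then cnt k (x + 1) (y - 1) else 0)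

/-- the words of the walks with `k` steps from `(x, y)` to `(0, 0)` in the quarter plane -/
def VL : ℕ → ℕ → ℕ → Finset Wd
  | 0, x, y => if x = 0 ∧ y = 0 then {[]} else ∅
  | k + 1, x, y => (VL k (x + 1) y).image (List.cons (true, true)) ∪
      (if 1 ≤ x then (VL k (x - 1) y).image (List.cons (false, false)) else ∅) ∪
      (if 1 ≤ x then (VL k (x - 1) (y + 1)).image (List.cons (false, true)) else ∅) ∪
      (if 1 ≤ y then (VL k (x + 1) (y - 1)).image (List.cons (true, false)) else ∅)

lemma card_VL (k x y : ℕ) : (VL k x y).card = cnt k x y := by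
  induction k generalizing x y with
  | zero =>
    unfold VL cnt
    split_ifs <;> simp
  | succ k ih =>
    have hinj : ∀ b : Bool × Bool, Function.Injective (List.cons b : Wd → Wd) :=
      fun b => List.cons_injective
    have h1 : ∀ (b b' : Bool × Bool) (s t : Finset Wd), b ≠ b' →
        Disjoint (s.image (List.cons b)) (t.image (List.cons b')) := by
      intro b b' s t hbb
      rw [Finset.disjoint_left]
      intro w hw hw'
      rw [Finset.mem_image] at hw hw'
      obtain ⟨u, _, rfl⟩ := hw
      obtain ⟨u', _, hu⟩ := hw'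
      injection hu with h2 _
      exact hbb h2.symm
    have h2 : ∀ (c : Prop) [Decidable c] (b b' : Bool × Bool) (s t : Finset Wd), b ≠ b' →
        Disjoint (s.image (List.cons b)) (if c then t.image (List.cons b') else ∅) := by
      intro c _ b b' s t hbb
      split_ifs
      · exact h1 _ _ _ _ hbb
      · exact Finset.disjoint_empty_right _
    have h3 : ∀ (c d : Prop) [Decidable c] [Decidable d] (b b' : Bool × Bool) (s t : Finset Wd),
        b ≠ b' → Disjoint (if c then s.image (List.cons b) else ∅)
        (if d then t.image (List.cons b') else ∅) := by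
      intro c d _ _ b b' s t hbb
      split_ifs
      · exact h1 _ _ _ _ hbb
      · exact Finset.disjoint_empty_right _
      · exact Finset.disjoint_empty_left _
      · exact Finset.disjoint_empty_left _
    have h4 : ∀ (c : Prop) [Decidable c] (b : Bool × Bool) (s : Finset Wd),
        (if c then s.image (List.cons b) else ∅).card = if c then s.card else 0 := by
      intro c _ b s
      split_ifs
      · rw [Finset.card_image_of_injective _ (hinj b)]
      · rfl
    unfold VL cnt
    rw [Finset.card_union_of_disjoint, Finset.card_union_of_disjoint,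
      Finset.card_union_of_disjoint, Finset.card_image_of_injective _ (hinj _), h4, h4, h4, ih, ih,
      ih, ih]
    · exact h2 _ _ _ _ _ (by decide)
    · rw [Finset.disjoint_union_left]
      exact ⟨h2 _ _ _ _ _ (by decide), h3 _ _ _ _ _ _ (by decide)⟩
    · rw [Finset.disjoint_union_left, Finset.disjoint_union_left]
      exact ⟨⟨h2 _ _ _ _ _ (by decide), h3 _ _ _ _ _ _ (by decide)⟩,
        h3 _ _ _ _ _ _ (by decide)⟩

lemma cnt_succ (k x y : ℕ) : cnt (k + 1) x y = cnt k (x + 1) y +
    (if 1 ≤ x then cnt k (x - 1) y else 0) + (if 1 ≤ x then cnt k (x - 1) (y + 1) else 0) +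
    (if 1 ≤ y then cnt k (x + 1) (y - 1) else 0) := rfl

/-- supermultiplicativity -/
lemma cnt_mul_le (k l x y : ℕ) : cnt k x y * cnt l 0 0 ≤ cnt (k + l) x y := by
  induction k generalizing x y with
  | zero =>
    rw [Nat.zero_add]
    unfold cnt
    by_cases h : x = 0 ∧ y = 0
    · obtain ⟨rfl, rfl⟩ := h
      simp
    · rw [if_neg h, zero_mul]
      exact Nat.zero_le _
  | succ k ih =>
    have h0 : k + 1 + l = (k + l) + 1 := by omega
    rw [h0]
    rw [cnt_succ, cnt_succ, add_mul, add_mul, add_mul]
    have h1 : ∀ (c : Prop) [Decidable c] (a b d : ℕ), a * d ≤ b →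
        (if c then a else 0) * d ≤ if c then b else 0 := by
      intro c _ a b d h
      split_ifs
      · exact h
      · simp
    exact Nat.add_le_add (Nat.add_le_add (Nat.add_le_add (ih _ _) (h1 _ _ _ _ (ih _ _)))
      (h1 _ _ _ _ (ih _ _))) (h1 _ _ _ _ (ih _ _))

theorem cnt10 : cnt 10 0 0 = 594 := by decide +kernel

theorem cnt12 : cnt 12 0 0 = 4719 := by decide +kernel

theorem cnt14 : cnt 14 0 0 = 40898 := by decide +kernel

end MP1c6e58.CAT
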