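import Mathlib
import Pool.Agent.Work.MP_1c6e58_ag.CAT.Walk

/-!
The number of pairs of paths beats the Catalan numbers.
-/

namespace MP1c6e58.CAT

lemma catalan_succ_le (k : ℕ) : catalan (k + 1) ≤ 4 * catalan k := by
  have h1 := succ_mul_catalan_eq_centralBinom (k + 1)
  have h2 := succ_mul_catalan_eq_centralBinom k
  have h3 := Nat.succ_mul_centralBinom_succ k
  rw [← h1, ← h2] at h3
  have h4 : (k + 1 + 1) * catalan (k + 1) = 2 * (2 * k + 1) * catalan k := by
    have : (k + 1) * ((k + 1 + 1) * catalan (k + 1)) = (k + 1) * (2 * (2 * k + 1) * catalan k) := by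
      rw [h3]; ring
    exact Nat.eq_of_mul_eq_mul_left (by omega) this
  have h5 : (k + 2) * catalan (k + 1) ≤ (k + 2) * (4 * catalan k) := by
    calc (k + 2) * catalan (k + 1) = 2 * (2 * k + 1) * catalan k := h4
      _ ≤ (k + 2) * 4 * catalan k := Nat.mul_le_mul_right _ (by omega)
      _ = (k + 2) * (4 * catalan k) := by ring
  exact Nat.le_of_mul_le_mul_left h5 (by omega)

lemma catalan_add_le (k j : ℕ) : catalan (k + j) ≤ 4 ^ j * catalan k := by
  induction j with
  | zero => simp
  | succ j ih =>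
    calc catalan (k + (j + 1)) ≤ 4 * catalan (k + j) := catalan_succ_le _
      _ ≤ 4 * (4 ^ j * catalan k) := Nat.mul_le_mul_left _ ih
      _ = 4 ^ (j + 1) * catalan k := by ring

lemma catalan_val (k c : ℕ) (h : (2 * k).choose k = (k + 1) * c) : catalan k = c := by
  have h1 := succ_mul_catalan_eq_centralBinom k
  rw [Nat.centralBinom, h] at h1
  exact Nat.eq_of_mul_eq_mul_left (by omega) h1

/-- the number of pairs of paths is larger than the Catalan number for `m ≥ 5` -/
theorem catalan_lt_cnt (m : ℕ) (hm : 5 ≤ m) : catalan (m + 2) < cnt (2 * m) 0 0 := by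
  induction m using Nat.strong_induction_on with
  | _ m ih =>
  have h1 : cnt 2 0 0 = 1 := by decide +kernel
  have h2 : cnt 4 0 0 = 3 := by decide +kernel
  have h3 : cnt 6 0 0 = 14 := by decide +kernel
  have h4 : cnt 8 0 0 = 84 := by decide +kernel
  have c7 : catalan 7 = 429 := catalan_val _ _ (by decide +kernel)
  have c8 : catalan 8 = 1430 := catalan_val _ _ (by decide +kernel)
  have c9 : catalan 9 = 4862 := catalan_val _ _ (by decide +kernel)
  have c10 : catalan 10 = 16796 := catalan_val _ _ (by decide +kernel)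
  have c11 : catalan 11 = 58786 := catalan_val _ _ (by decide +kernel)
  have c12 : catalan 12 = 208012 := catalan_val _ _ (by decide +kernel)
  have c13 : catalan 13 = 742900 := catalan_val _ _ (by decide +kernel)
  by_cases hlt : m < 12
  · have hcases : m = 5 ∨ m = 6 ∨ m = 7 ∨ m = 8 ∨ m = 9 ∨ m = 10 ∨ m = 11 := by omega
    have hs : ∀ j, cnt 14 0 0 * cnt j 0 0 ≤ cnt (14 + j) 0 0 := fun j => cnt_mul_le 14 j 0 0
    rcases hcases with rfl | rfl | rfl | rfl | rfl | rfl | rfl
    · rw [c7, cnt10]; norm_num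
    · rw [c8, cnt12]; norm_num
    · rw [c9, cnt14]; norm_num
    · have := hs 2
      rw [cnt14, h1] at this
      rw [c10]
      exact lt_of_lt_of_le (by norm_num) this
    · have := hs 4
      rw [cnt14, h2] at this
      rw [c11]
      exact lt_of_lt_of_le (by norm_num) this
    · have := hs 6
      rw [cnt14, h3] at this
      rw [c12]
      exact lt_of_lt_of_le (by norm_num) this
    · have := hs 8
      rw [cnt14, h4] at this
      rw [c13]
      exact lt_of_lt_of_le (by norm_num) this
  · obtain ⟨j, rfl⟩ : ∃ j, m = j + 7 := ⟨m - 7, by omega⟩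
    have h5 := ih j (by omega) (by omega)
    have h6 : catalan (j + 7 + 2) ≤ 4 ^ 7 * catalan (j + 2) := by
      have := catalan_add_le (j + 2) 7
      rwa [show j + 2 + 7 = j + 7 + 2 by ring] at this
    have h7 := cnt_mul_le 14 (2 * j) 0 0
    rw [cnt14, show 14 + 2 * j = 2 * (j + 7) by ring] at h7
    calc catalan (j + 7 + 2) ≤ 4 ^ 7 * catalan (j + 2) := h6
      _ < 40898 * cnt (2 * j) 0 0 := by
        have : 4 ^ 7 * catalan (j + 2) < 4 ^ 7 * cnt (2 * j) 0 0 :=
          Nat.mul_lt_mul_of_pos_left h5 (by norm_num)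
        refine this.trans_le (Nat.mul_le_mul_right _ (by norm_num))
      _ ≤ cnt (2 * (j + 7)) 0 0 := h7

end MP1c6e58.CAT
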