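import Mathlib
import Pool.Agent.Work.MP_1c6e58_ag.CAT.Walk

/-!
Faces from words: unions of two disjoint lattice paths.
-/

namespace MP1c6e58.CAT

open Finset Pool.Agent.SH

/-! ### Sets of cells `(f (a+b), ..)` for monotone Lipschitz `f` -/

/-- `f` is monotone with steps `0` and `1` -/
def Lip (f : ℕ → ℕ) : Prop := ∀ s, f s ≤ f (s + 1) ∧ f (s + 1) ≤ f s + 1

lemma Lip.mono {f : ℕ → ℕ} (h : Lip f) {s t : ℕ} (hst : s ≤ t) : f s ≤ f t := by
  induction t, hst using Nat.le_induction with
  | base => exact le_rfl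
  | succ t _ ih => exact ih.trans (h t).1

lemma Lip.lip {f : ℕ → ℕ} (h : Lip f) {s t : ℕ} (hst : s ≤ t) : f t ≤ f s + (t - s) := by
  induction t, hst using Nat.le_induction with
  | base => simp
  | succ t hst' ih =>
    have := (h t).2
    omega

lemma no_SW {n : ℕ} {f : ℕ → ℕ} (h : Lip f) (p q : Fin n × Fin n)
    (hp : (p.1 : ℕ) = f (p.1 + p.2)) (hq : (q.1 : ℕ) = f (q.1 + q.2)) : ¬ SW q p := by
  rintro ⟨h1, h2⟩
  have h1' : (p.1 : ℕ) < q.1 := h1
  have h2' : (q.2 : ℕ) < p.2 := h2
  rcases le_total ((p.1 : ℕ) + p.2) ((q.1 : ℕ) + q.2) with h3 | h3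
  · have := h.lip h3
    rw [← hp, ← hq] at this
    omega
  · have := h.mono h3
    rw [← hp, ← hq] at this
    omega

/-- sets of cells covered by two classes without south-west pairs have no chains of length three -/
lemma EE_two {n : ℕ} (S : Finset (Fin n × Fin n)) (A B : Fin n × Fin n → Prop)
    (hS : ∀ p ∈ S, A p ∨ B p) (hA : ∀ p q, A p → A q → ¬ SW q p)
    (hB : ∀ p q, B p → B q → ¬ SW q p) : EE S 2 = ∅ := by
  rw [Finset.eq_empty_iff_forall_notMem]
  intro p hp
  obtain ⟨r, c, _, _, hS', hlt⟩ := exists_chain S 2 p hp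
  have h01 : SW (r 1, c 1) (r 0, c 0) := ⟨(hlt 0 (by omega)).1, (hlt 0 (by omega)).2⟩
  have h12 : SW (r 2, c 2) (r 1, c 1) := ⟨(hlt 1 (by omega)).1, (hlt 1 (by omega)).2⟩
  have h02 : SW (r 2, c 2) (r 0, c 0) := ⟨h01.1.trans h12.1, h12.2.trans h01.2⟩
  rcases hS _ (hS' 0 (by omega)) with h0 | h0 <;> rcases hS _ (hS' 1 (by omega)) with h1 | h1 <;>
    rcases hS _ (hS' 2 (by omega)) with h2 | h2
  · exact hA _ _ h0 h1 h01
  · exact hA _ _ h0 h1 h01
  · exact hA _ _ h0 h2 h02
  · exact hB _ _ h1 h2 h12
  · exact hA _ _ h1 h2 h12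
  · exact hB _ _ h0 h2 h02
  · exact hB _ _ h0 h1 h01
  · exact hB _ _ h0 h1 h01

/-! ### Words -/

/-- row of the inner path after `j` steps -/
def A1 (w : Wd) (j : ℕ) : ℕ := 2 + (w.take j).countP (fun b => b.1)

/-- row of the outer path after `j` steps -/
def A2 (w : Wd) (j : ℕ) : ℕ := 3 + (w.take j).countP (fun b => b.2)

lemma countP_take_succ (f : Bool × Bool → Bool) (w : Wd) (j : ℕ) :
    (w.take j).countP f ≤ (w.take (j + 1)).countP f ∧
    (w.take (j + 1)).countP f ≤ (w.take j).countP f + 1 := by
  induction w generalizing j with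
  | nil => simp
  | cons b w ih =>
    cases j with
    | zero =>
      simp only [List.take_zero, List.countP_nil, Nat.zero_add, List.take_succ_cons,
        List.countP_cons]
      split_ifs <;> simp
    | succ j =>
      have := ih j
      simp only [List.take_succ_cons, List.countP_cons]
      split_ifs <;> omega

lemma A1_lip (w : Wd) : Lip (A1 w) := fun s => by
  have := countP_take_succ (fun b => b.1) w s
  unfold A1
  omega

lemma A2_lip (w : Wd) : Lip (A2 w) := fun s => by
  have := countP_take_succ (fun b => b.2) w s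
  unfold A2
  omega

/-- what membership in `VL` says about the numbers of letters -/
lemma VL_spec (k x y : ℕ) (w : Wd) (hw : w ∈ VL k x y) :
    w.length = k ∧ (∀ j ≤ k, j ≤ x + 2 * (w.take j).countP (fun b => b.1) ∧
      (w.take j).countP (fun b => b.1) ≤ y + (w.take j).countP (fun b => b.2)) ∧
      (x + 2 * w.countP (fun b => b.1) = k) ∧
      (w.countP (fun b => b.1) = y + w.countP (fun b => b.2)) := by
  induction k generalizing x y w with
  | zero =>
    unfold VL at hw
    split_ifs at hw with h
    · rw [Finset.mem_singleton] at hw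
      subst hw
      obtain ⟨rfl, rfl⟩ := h
      simp
    · simp at hw
  | succ k ih =>
    unfold VL at hw
    rw [Finset.mem_union, Finset.mem_union, Finset.mem_union] at hw
    have key : ∀ (b1 b2 : Bool) (x' y' : ℕ) (u : Wd), u ∈ VL k x' y' → w = (b1, b2) :: u →
        (x' + 1 = x + 2 * b1.toNat) → (y' + b1.toNat = y + b2.toNat) →
        w.length = k + 1 ∧ (∀ j ≤ k + 1, j ≤ x + 2 * (w.take j).countP (fun b => b.1) ∧
        (w.take j).countP (fun b => b.1) ≤ y + (w.take j).countP (fun b => b.2)) ∧
        (x + 2 * w.countP (fun b => b.1) = k + 1) ∧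
        (w.countP (fun b => b.1) = y + w.countP (fun b => b.2)) := by
      intro b1 b2 x' y' u hu hwu hx hy
      obtain ⟨h1, h2, h3, h4⟩ := ih x' y' u hu
      subst hwu
      have hc : ∀ (f : Bool × Bool → Bool) (v : Wd), ((b1, b2) :: v).countP f =
          v.countP f + (f (b1, b2)).toNat := by
        intro f v
        rw [List.countP_cons]
        cases f (b1, b2) <;> simp
      refine ⟨by simp [h1], ?_, ?_, ?_⟩
      · intro j hj
        cases j with
        | zero => simp
        | succ j =>
          have h5 := h2 j (by omega)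
          rw [List.take_succ_cons, hc, hc]
          simp only
          omega
      · rw [hc]
        simp only
        omega
      · rw [hc, hc]
        simp only
        omega
    rcases hw with ((hw | hw) | hw) | hw
    · rw [Finset.mem_image] at hw
      obtain ⟨u, hu, rfl⟩ := hw
      exact key true true _ _ u hu rfl (by simp) (by simp)
    · split_ifs at hw with hx
      · rw [Finset.mem_image] at hw
        obtain ⟨u, hu, rfl⟩ := hw
        exact key false false _ _ u hu rfl (by simp; omega) (by simp)
      · simp at hw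
    · split_ifs at hw with hx
      · rw [Finset.mem_image] at hw
        obtain ⟨u, hu, rfl⟩ := hw
        exact key false true _ _ u hu rfl (by simp; omega) (by simp)
      · simp at hw
    · split_ifs at hw with hy
      · rw [Finset.mem_image] at hw
        obtain ⟨u, hu, rfl⟩ := hw
        exact key true false _ _ u hu rfl (by simp) (by simp; omega)
      · simp at hw

/-- the inequalities for a closed word -/
structure Wok (m : ℕ) (w : Wd) : Prop where
  len : w.length = 2 * m
  inner : ∀ j ≤ 2 * m, j + 4 ≤ 2 * A1 w j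
  outer : ∀ j ≤ 2 * m, A1 w j < A2 w j
  end1 : A1 w (2 * m) = m + 2
  end2 : A2 w (2 * m) = m + 3

lemma wok_of_mem (m : ℕ) (w : Wd) (hw : w ∈ VL (2 * m) 0 0) : Wok m w := by
  obtain ⟨h1, h2, h3, h4⟩ := VL_spec _ _ _ _ hw
  have h5 : w.take (2 * m) = w := by rw [← h1, List.take_length]
  refine ⟨h1, ?_, ?_, ?_, ?_⟩
  · intro j hj
    have := (h2 j hj).1
    unfold A1
    omega
  · intro j hj
    have := (h2 j hj).2
    unfold A1 A2
    omega
  · unfold A1
    rw [h5]
    omega
  · unfold A2
    rw [h5]
    omega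

end MP1c6e58.CAT
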