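import Mathlib
import Pool.Agent.Work.MP_1c6e58_ag.CAT.Face2

/-!
The faces of maximal size for `ρ = 2`.
-/

namespace MP1c6e58.CAT

open Finset Pool.Agent.SH

/-- an antidiagonal meets a set without chains of length `ρ + 1` in at most `ρ` cells -/
lemma card_fib_le {n : ℕ} (F : Finset (Fin n × Fin n)) (s k : ℕ) :
    ((EE F 0).filter fun p => (p.1 : ℕ) + p.2 = s).card ≤
    ((EE F k).filter fun p => (p.1 : ℕ) + p.2 = s).card + k := by
  induction k with
  | zero => exact le_rfl
  | succ k ih =>
    refine ih.trans ?_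
    have h : ((EE F k).filter fun p => (p.1 : ℕ) + p.2 = s).card ≤
        ((EE F (k + 1)).filter fun p => (p.1 : ℕ) + p.2 = s).card + 1 := by
      by_cases he : ((EE F k).filter fun p => (p.1 : ℕ) + p.2 = s).Nonempty
      · obtain ⟨q, hq, hmax⟩ := Finset.exists_max_image _ (fun p : Fin n × Fin n => (p.1 : ℕ)) he
        have hsub : ((EE F k).filter fun p => (p.1 : ℕ) + p.2 = s).erase q ⊆
            (EE F (k + 1)).filter fun p => (p.1 : ℕ) + p.2 = s := by
          intro p hp
          rw [Finset.mem_erase] at hp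
          obtain ⟨hpq, hp⟩ := hp
          have h1 := hmax p hp
          rw [Finset.mem_filter] at hp hq ⊢
          refine ⟨?_, hp.2⟩
          unfold EE
          rw [Finset.mem_filter]
          refine ⟨hp.1, q, hq.1, ?_⟩
          have h2 : (p.1 : ℕ) ≠ q.1 := by
            intro hh
            apply hpq
            ext
            · exact hh
            · have := hp.2; have := hq.2; omega
          constructor
          · show (p.1 : ℕ) < q.1
            omega
          · show (q.2 : ℕ) < p.2
            have := hp.2; have := hq.2; omega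
        have h3 := Finset.card_le_card hsub
        rw [Finset.card_erase_of_mem hq] at h3
        omega
      · rw [Finset.not_nonempty_iff_eq_empty] at he
        rw [he]
        simp
    omega

lemma card_fib_le_of_face {n ρ : ℕ} (F : Finset (Co n)) (hF : IsFace ρ F) (s : ℕ) :
    (F.filter fun p => (p.1.1 : ℕ) + p.1.2 = s).card ≤ ρ := by
  have h1 := card_fib_le (F.map ⟨Subtype.val, Subtype.val_injective⟩) s ρ
  unfold IsFace at hF
  rw [hF, Finset.filter_empty, Finset.card_empty, Nat.zero_add] at h1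
  refine le_trans (le_of_eq ?_) h1
  rw [← Finset.card_map ⟨Subtype.val, Subtype.val_injective⟩ (s := F.filter _)]
  congr 1
  ext p
  simp only [EE, Finset.mem_map, Finset.mem_filter, Function.Embedding.coeFn_mk]
  constructor
  · rintro ⟨q, ⟨hq, hs⟩, rfl⟩
    exact ⟨⟨q, hq, rfl⟩, hs⟩
  · rintro ⟨⟨q, hq, rfl⟩, hs⟩
    exact ⟨q, ⟨hq, hs⟩, rfl⟩

/-- the number of cells of a face of maximal size on an antidiagonal -/
def gg (m s : ℕ) : ℕ := (if 1 ≤ s then 1 else 0) + (if 3 ≤ s ∧ s ≤ 2 * m + 3 then 1 else 0)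

lemma sum_gg (m : ℕ) : ∑ s ∈ range (2 * m + 6), gg m s = 4 * m + 6 := by
  unfold gg
  rw [Finset.sum_add_distrib, ← Finset.card_filter, ← Finset.card_filter]
  have h1 : (range (2 * m + 6)).filter (fun s => 1 ≤ s) = Finset.Icc 1 (2 * m + 5) := by
    ext s
    simp only [Finset.mem_filter, Finset.mem_range, Finset.mem_Icc]
    omega
  have h2 : (range (2 * m + 6)).filter (fun s => 3 ≤ s ∧ s ≤ 2 * m + 3) =
      Finset.Icc 3 (2 * m + 3) := by
    ext s
    simp only [Finset.mem_filter, Finset.mem_range, Finset.mem_Icc]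
    omega
  rw [h1, h2, Nat.card_Icc, Nat.card_Icc]
  omega

lemma maps (m : ℕ) (F : Finset (Co (m + 4))) :
    ∀ p ∈ F, (p.1.1 : ℕ) + p.1.2 ∈ range (2 * m + 6) := by
  intro p _
  rw [Finset.mem_range]
  have h1 := p.1.1.isLt
  have h2 : (p.1.2 : ℕ) < p.1.1 := p.2
  omega

/-- faces have at most `4 m + 6` cells -/
theorem card_face_le (m : ℕ) (F : Finset (Co (m + 4))) (hF : IsFace 2 F) : F.card ≤ 4 * m + 6 := by
  rw [← sum_gg, Finset.card_eq_sum_card_fiberwise (maps m F)]
  refine Finset.sum_le_sum fun s hs => ?_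
  by_cases h3 : 3 ≤ s ∧ s ≤ 2 * m + 3
  · have := card_fib_le_of_face F hF s
    unfold gg
    rw [if_pos (by omega), if_pos h3]
    exact this
  · by_cases h1 : 1 ≤ s
    · unfold gg
      rw [if_pos h1, if_neg h3, add_zero, Finset.card_le_one]
      intro p hp q hq
      rw [Finset.mem_filter] at hp hq
      rw [Finset.mem_range] at hs
      have hp1 := p.1.1.isLt
      have hp2 : (p.1.2 : ℕ) < p.1.1 := p.2
      have hq1 := q.1.1.isLt
      have hq2 : (q.1.2 : ℕ) < q.1.1 := q.2
      have hp3 := hp.2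
      have hq3 := hq.2
      apply Subtype.ext
      ext
      · omega
      · omega
    · unfold gg
      rw [if_neg h1, if_neg h3, add_zero, Nat.le_zero, Finset.card_eq_zero,
        Finset.filter_eq_empty_iff]
      intro p hp
      have hp2 : (p.1.2 : ℕ) < p.1.1 := p.2
      omega

/-- row of the extended outer path on the antidiagonal `s` -/
def Out (m : ℕ) (w : Wd) (s : ℕ) : ℕ :=
  if s < 3 then s else if s ≤ 2 * m + 3 then A2 w (s - 3) else m + 3

lemma out_lip (m : ℕ) (w : Wd) (hw : Wok m w) : Lip (Out m w) := by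
  intro s
  unfold Out
  have h0 : A2 w 0 = 3 := by simp [A2]
  by_cases h1 : s + 1 < 3
  · rw [if_pos (by omega), if_pos h1]
    omega
  · by_cases h2 : s = 2
    · subst h2
      rw [if_pos (by omega), if_neg (by omega), if_pos (by omega)]
      simp only [show 2 + 1 - 3 = 0 from rfl, h0]
      omega
    · by_cases h3 : s + 1 ≤ 2 * m + 3
      · rw [if_neg (by omega), if_pos (by omega), if_neg (by omega), if_pos h3]
        have := A2_lip w (s - 3)
        rw [show s + 1 - 3 = s - 3 + 1 by omega]
        exact this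
      · by_cases h4 : s ≤ 2 * m + 3
        · have h5 : s = 2 * m + 3 := by omega
          subst h5
          rw [if_neg (by omega), if_pos h4, if_neg (by omega), if_neg h3,
            show 2 * m + 3 - 3 = 2 * m by omega, hw.end2]
          omega
        · rw [if_neg (by omega), if_neg h4, if_neg (by omega), if_neg h3]
          omega

/-- the face of a word -/
def Fw (m : ℕ) (w : Wd) : Finset (Co (m + 4)) :=
  univ.filter fun p => (p.1.1 : ℕ) = Out m w (p.1.1 + p.1.2) ∨
    (3 ≤ (p.1.1 : ℕ) + p.1.2 ∧ (p.1.1 : ℕ) + p.1.2 ≤ 2 * m + 3 ∧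
      (p.1.1 : ℕ) = A1 w (p.1.1 + p.1.2 - 3))

lemma inner_lip (w : Wd) : Lip (fun s => A1 w (s - 3)) := by
  intro s
  by_cases h : s < 3
  · have h1 : s - 3 = 0 := by omega
    have h2 : s + 1 - 3 = 0 := by omega
    simp only [h1, h2]
    omega
  · have h1 : s + 1 - 3 = s - 3 + 1 := by omega
    simp only [h1]
    exact A1_lip w (s - 3)

lemma isFace_Fw (m : ℕ) (w : Wd) (hw : Wok m w) : IsFace 2 (Fw m w) := by
  unfold IsFace
  apply EE_two _ (fun p => (p.1 : ℕ) = Out m w (p.1 + p.2))
    (fun p => (p.1 : ℕ) = (fun s => A1 w (s - 3)) (p.1 + p.2))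
  · intro p hp
    rw [Finset.mem_map] at hp
    obtain ⟨q, hq, rfl⟩ := hp
    unfold Fw at hq
    rw [Finset.mem_filter] at hq
    rcases hq.2 with h | ⟨_, _, h⟩
    · exact Or.inl h
    · exact Or.inr h
  · intro p q hp hq
    exact no_SW (out_lip m w hw) p q hp hq
  · intro p q hp hq
    exact no_SW (inner_lip w) p q hp hq

/-- the outer cell on the antidiagonal `s` -/
lemma out_cell (m : ℕ) (w : Wd) (hw : Wok m w) (s : ℕ) (h1 : 1 ≤ s) (h2 : s ≤ 2 * m + 5) :
    ∃ p ∈ Fw m w, (p.1.1 : ℕ) + p.1.2 = s ∧ (p.1.1 : ℕ) = Out m w s := by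
  have ha : Out m w s ≤ s ∧ s < 2 * Out m w s ∧ Out m w s < m + 4 := by
    unfold Out
    split_ifs with h3 h4
    · omega
    · have h5 := hw.inner (s - 3) (by omega)
      have h6 := hw.outer (s - 3) (by omega)
      have h7 : A2 w (s - 3) ≤ A2 w (2 * m) := (A2_lip w).mono (by omega)
      have h8 : A2 w (s - 3) ≤ A2 w 0 + (s - 3 - 0) := (A2_lip w).lip (by omega)
      have h0 : A2 w 0 = 3 := by simp [A2]
      rw [hw.end2] at h7
      omega
    · omega
  refine ⟨⟨(⟨Out m w s, ha.2.2⟩, ⟨s - Out m w s, by omega⟩), ?_⟩, ?_, ?_, rfl⟩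
  · show (s - Out m w s : ℕ) < Out m w s
    omega
  · unfold Fw
    rw [Finset.mem_filter]
    refine ⟨Finset.mem_univ _, Or.inl ?_⟩
    simp only
    rw [show Out m w s + (s - Out m w s) = s by omega]
  · simp only
    omega

/-- the inner cell on the antidiagonal `s` -/
lemma in_cell (m : ℕ) (w : Wd) (hw : Wok m w) (s : ℕ) (h1 : 3 ≤ s) (h2 : s ≤ 2 * m + 3) :
    ∃ p ∈ Fw m w, (p.1.1 : ℕ) + p.1.2 = s ∧ (p.1.1 : ℕ) = A1 w (s - 3) := by
  have h5 := hw.inner (s - 3) (by omega)
  have h7 : A1 w (s - 3) ≤ A1 w (2 * m) := (A1_lip w).mono (by omega)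
  have h8 : A1 w (s - 3) ≤ A1 w 0 + (s - 3 - 0) := (A1_lip w).lip (by omega)
  have h0 : A1 w 0 = 2 := by simp [A1]
  rw [hw.end1] at h7
  refine ⟨⟨(⟨A1 w (s - 3), by omega⟩, ⟨s - A1 w (s - 3), by omega⟩), ?_⟩, ?_, ?_, rfl⟩
  · show (s - A1 w (s - 3) : ℕ) < A1 w (s - 3)
    omega
  · unfold Fw
    rw [Finset.mem_filter]
    refine ⟨Finset.mem_univ _, Or.inr ?_⟩
    simp only
    rw [show A1 w (s - 3) + (s - A1 w (s - 3)) = s by omega]
    exact ⟨h1, h2, rfl⟩
  · simp only
    omega

lemma card_Fw (m : ℕ) (w : Wd) (hw : Wok m w) : (Fw m w).card = 4 * m + 6 := by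
  apply le_antisymm (card_face_le m _ (isFace_Fw m w hw))
  rw [← sum_gg, Finset.card_eq_sum_card_fiberwise (maps m (Fw m w))]
  refine Finset.sum_le_sum fun s hs => ?_
  rw [Finset.mem_range] at hs
  unfold gg
  by_cases h1 : 1 ≤ s
  · rw [if_pos h1]
    obtain ⟨p, hp, hps, hpo⟩ := out_cell m w hw s h1 (by omega)
    by_cases h3 : 3 ≤ s ∧ s ≤ 2 * m + 3
    · rw [if_pos h3]
      obtain ⟨q, hq, hqs, hqo⟩ := in_cell m w hw s h3.1 h3.2
      apply Finset.one_lt_card.2
      refine ⟨p, Finset.mem_filter.2 ⟨hp, hps⟩, q, Finset.mem_filter.2 ⟨hq, hqs⟩, ?_⟩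
      rintro rfl
      rw [hpo] at hqo
      unfold Out at hqo
      rw [if_neg (by omega), if_pos h3.2] at hqo
      have := hw.outer (s - 3) (by omega)
      omega
    · rw [if_neg h3, add_zero]
      exact Finset.card_pos.2 ⟨p, Finset.mem_filter.2 ⟨hp, hps⟩⟩
  · rw [if_neg h1, if_neg (by omega)]
    exact Nat.zero_le _

/-- the rows of the paths are determined by the face -/
lemma rows_of_Fw (m : ℕ) (w w' : Wd) (hw : Wok m w) (hw' : Wok m w') (h : Fw m w = Fw m w')
    (j : ℕ) (hj : j ≤ 2 * m) : A1 w j = A1 w' j ∧ A2 w j = A2 w' j := by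
  have key : ∀ u u' : Wd, Wok m u → Wok m u' → Fw m u = Fw m u' →
      (A1 u j = A1 u' j ∨ A1 u j = A2 u' j) ∧ (A2 u j = A1 u' j ∨ A2 u j = A2 u' j) := by
    intro u u' hu hu' huu
    have hO : ∀ v : Wd, Out m v (j + 3) = A2 v j := by
      intro v
      unfold Out
      rw [if_neg (by omega), if_pos (by omega), show j + 3 - 3 = j by omega]
    have hmem : ∀ p ∈ Fw m u', (p.1.1 : ℕ) + p.1.2 = j + 3 →
        (p.1.1 : ℕ) = A1 u' j ∨ (p.1.1 : ℕ) = A2 u' j := by
      intro p hp hps
      unfold Fw at hp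
      rw [Finset.mem_filter] at hp
      rcases hp.2 with h1 | ⟨_, _, h1⟩
      · right
        rw [hps, hO] at h1
        exact h1
      · left
        rw [hps, show j + 3 - 3 = j by omega] at h1
        exact h1
    obtain ⟨p, hp, hps, hpo⟩ := in_cell m u hu (j + 3) (by omega) (by omega)
    obtain ⟨q, hq, hqs, hqo⟩ := out_cell m u hu (j + 3) (by omega) (by omega)
    rw [huu] at hp hq
    have h1 := hmem p hp hps
    have h2 := hmem q hq hqs
    rw [show j + 3 - 3 = j by omega] at hpo
    rw [hO] at hqo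
    rw [hpo] at h1
    rw [hqo] at h2
    exact ⟨h1, h2⟩
  have h1 := key w w' hw hw' h
  have h2 := hw.outer j hj
  have h3 := hw'.outer j hj
  have h4 := key w' w hw' hw h.symm
  omega

/-- a word is determined by the numbers of letters in its prefixes -/
lemma word_ext (w w' : Wd) (hl : w.length = w'.length)
    (h1 : ∀ j ≤ w.length, (w.take j).countP (fun b => b.1) = (w'.take j).countP (fun b => b.1))
    (h2 : ∀ j ≤ w.length, (w.take j).countP (fun b => b.2) = (w'.take j).countP (fun b => b.2)) :
    w = w' := by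
  induction w generalizing w' with
  | nil =>
    symm
    rw [← List.length_eq_zero_iff, ← hl]
    rfl
  | cons b w ih =>
    cases w' with
    | nil => simp at hl
    | cons b' w' =>
      have hb1 := h1 1 (by simp)
      have hb2 := h2 1 (by simp)
      simp only [List.take_succ_cons, List.take_zero, List.countP_cons, List.countP_nil,
        Nat.zero_add] at hb1 hb2
      have hbb : b = b' := by
        ext
        · rcases b with ⟨x, y⟩
          rcases b' with ⟨x', y'⟩
          simp only at hb1
          cases x <;> cases x' <;> simp_all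
        · rcases b with ⟨x, y⟩
          rcases b' with ⟨x', y'⟩
          simp only at hb2
          cases y <;> cases y' <;> simp_all
      subst hbb
      congr 1
      apply ih w' (by simpa using hl)
      · intro j hj
        have := h1 (j + 1) (by simpa using hj)
        simp only [List.take_succ_cons, List.countP_cons] at this
        omega
      · intro j hj
        have := h2 (j + 1) (by simpa using hj)
        simp only [List.take_succ_cons, List.countP_cons] at this
        omega

/-- the number of faces of maximal size is at least the number of words -/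
theorem cnt_le_card (m : ℕ) : cnt (2 * m) 0 0 ≤
    (univ.filter fun F : Finset (Co (m + 4)) => IsFace 2 F ∧ F.card = 4 * m + 6).card := by
  classical
  rw [← card_VL]
  apply Finset.card_le_card_of_injOn (Fw m)
  · intro w hw
    have h := wok_of_mem m w (by simpa using hw)
    simp only [Finset.coe_filter, Finset.mem_univ, true_and, Set.mem_setOf_eq]
    exact ⟨isFace_Fw m w h, card_Fw m w h⟩
  · intro w hw w' hw' hF
    have h := wok_of_mem m w (by simpa using hw)
    have h' := wok_of_mem m w' (by simpa using hw')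
    have hr := rows_of_Fw m w w' h h' hF
    apply word_ext w w' (by rw [h.len, h'.len])
    · intro j hj
      rw [h.len] at hj
      have := (hr j hj).1
      unfold A1 at this
      omega
    · intro j hj
      rw [h.len] at hj
      have := (hr j hj).2
      unfold A2 at this
      omega

end MP1c6e58.CAT
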