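import Mathlib
import Pool.Agent.Work.MP_1c6e58_ag.CAT.Face3
import Pool.Agent.Work.MP_1c6e58_ag.CAT.Cata

/-!
The Schubert variety `X_v`, `v = n (n-1) 3 4 ... (n-2) 2 1`, at the identity.
-/

namespace MP1c6e58.CAT

open Finset MvPolynomial Pool.Agent.SH

/-- rank-nullity for the restriction to a subspace -/
lemma rank_null {E E' : Type} [AddCommGroup E] [Module ℂ E] [FiniteDimensional ℂ E]
    [AddCommGroup E'] [Module ℂ E'] (V : Submodule ℂ E) (L : E →ₗ[ℂ] E') :
    Module.finrank ℂ (V.map L) + Module.finrank ℂ (V ⊓ LinearMap.ker L : Submodule ℂ E) =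
      Module.finrank ℂ V := by
  have h1 := LinearMap.finrank_range_add_finrank_ker (L.domRestrict V)
  have h2 : LinearMap.range (L.domRestrict V) = V.map L := by
    ext y
    constructor
    · rintro ⟨x, rfl⟩
      exact ⟨x.1, x.2, rfl⟩
    · rintro ⟨x, hx, rfl⟩
      exact ⟨⟨x, hx⟩, rfl⟩
  have h3 : LinearMap.ker (L.domRestrict V) = (LinearMap.ker L).comap V.subtype := by
    ext y
    rfl
  have h4 := Submodule.finrank_map_subtype_eq V (LinearMap.ker (L.domRestrict V))
  rw [h3, Submodule.map_comap_subtype] at h4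
  rw [h2, h3, ← h4] at h1
  exact h1

variable {n : ℕ}

lemma Um_det (z : Co n → ℂ) : (Um z).det = 1 := by
  have h : (Um z).BlockTriangular OrderDual.toDual := by
    intro i j hij
    have hij' : i < j := hij
    unfold Um
    rw [dif_neg (by exact not_lt.2 hij'.le), if_neg hij'.ne]
  rw [Matrix.det_of_isLowerTriangular _ h]
  apply Finset.prod_eq_one
  intro i _
  unfold Um
  rw [dif_neg (lt_irrefl _), if_pos rfl]

lemma colV_one (z : Co n → ℂ) (j : Fin n) : colV 1 z j = fun a => Um z a j := rfl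

lemma cols_li (z : Co n → ℂ) : LinearIndependent ℂ (fun j : Fin n => colV 1 z j) := by
  have h : IsUnit (Um z) := by
    rw [Matrix.isUnit_iff_isUnit_det, Um_det]
    exact isUnit_one
  have h2 := Matrix.linearIndependent_cols_iff_isUnit.2 h
  exact h2

/-- the subspaces of the flag as spans of ranges -/
lemma Fl_eq (z : Co n → ℂ) (p : Fin n) :
    Fl 1 z p = Submodule.span ℂ (Set.range fun j : {j : Fin n // j ≤ p} => colV 1 z j.1) := by
  unfold Fl
  congr 1
  ext y
  constructor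
  · rintro ⟨j, hj, rfl⟩
    exact ⟨⟨j, hj⟩, rfl⟩
  · rintro ⟨j, rfl⟩
    exact ⟨j.1, j.2, rfl⟩

lemma finrank_Fl (z : Co n → ℂ) (p : Fin n) : Module.finrank ℂ (Fl 1 z p) = p + 1 := by
  rw [Fl_eq]
  have h := (cols_li z).comp (fun j : {j : Fin n // j ≤ p} => j.1) Subtype.val_injective
  have h2 := finrank_span_eq_card h
  have h3 : Fintype.card {j : Fin n // j ≤ p} = p + 1 := by
    rw [Fintype.card_subtype]
    have : (univ.filter fun j : Fin n => j ≤ p) = Finset.Iic p := by
      ext j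
      simp
    rw [this, Fin.card_Iic]
  rw [← h3, ← h2]
  rfl

/-- the permutation `n (n-1) 3 4 ... (n-2) 2 1` (`n = m + 4`), as a function -/
def vf (m : ℕ) (j : Fin (m + 4)) : Fin (m + 4) :=
  if (j : ℕ) < 2 ∨ m + 2 ≤ (j : ℕ) then Fin.rev j else j

lemma vf_vf (m : ℕ) (j : Fin (m + 4)) : vf m (vf m j) = j := by
  unfold vf
  have hj := j.isLt
  by_cases h : (j : ℕ) < 2 ∨ m + 2 ≤ (j : ℕ)
  · have h' : ((Fin.rev j : Fin (m + 4)) : ℕ) < 2 ∨ m + 2 ≤ ((Fin.rev j : Fin (m + 4)) : ℕ) := by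
      rw [Fin.val_rev]
      omega
    rw [if_pos h, if_pos h', Fin.rev_rev]
  · rw [if_neg h, if_neg h]

/-- the permutation `n (n-1) 3 4 ... (n-2) 2 1` (`n = m + 4`) -/
def vp (m : ℕ) : Equiv.Perm (Fin (m + 4)) where
  toFun := vf m
  invFun := vf m
  left_inv := vf_vf m
  right_inv := vf_vf m

lemma vp_val (m : ℕ) (j : Fin (m + 4)) : ((vp m j : Fin (m + 4)) : ℕ) =
    if (j : ℕ) < 2 ∨ m + 2 ≤ (j : ℕ) then m + 3 - j else j := by
  show ((vf m j : Fin (m + 4)) : ℕ) = _
  unfold vf
  split_ifs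
  · rw [Fin.val_rev]; omega
  · rfl

/-- the identity is the smallest element of the Bruhat order -/
lemma br_one (w : Equiv.Perm (Fin n)) : Br 1 w := by
  intro p q
  unfold rk
  have h1 : (univ.filter fun j : Fin n => j ≤ p ∧ w j ≤ q).card ≤
      (univ.filter fun j : Fin n => j ≤ p).card := Finset.card_le_card (by
    intro j hj
    rw [Finset.mem_filter] at hj ⊢
    exact ⟨hj.1, hj.2.1⟩)
  have h2 : (univ.filter fun j : Fin n => j ≤ p ∧ w j ≤ q).card ≤
      (univ.filter fun j : Fin n => j ≤ q).card := Finset.card_le_card_of_injOn w (by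
    intro j hj
    simp only [Finset.coe_filter, Finset.mem_univ, true_and, Set.mem_ofPred_eq] at hj ⊢
    exact hj.2) w.injective.injOn
  rcases le_total p q with h | h
  · refine h1.trans (Finset.card_le_card fun j hj => ?_)
    rw [Finset.mem_filter] at hj ⊢
    exact ⟨hj.1, hj.2, le_trans hj.2 h⟩
  · refine h2.trans (Finset.card_le_card fun j hj => ?_)
    rw [Finset.mem_filter] at hj ⊢
    exact ⟨hj.1, le_trans hj.2 h, hj.2⟩

/-- lower bound for the ranks of `v` used for the minors -/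
lemma rk_ge (m : ℕ) (p q : Fin (m + 4)) (hpq : p ≤ q) (hp : 2 ≤ (p : ℕ)) :
    (p : ℕ) - 1 ≤ rk (vp m) p q := by
  unfold rk
  have h1 : (Finset.Icc (⟨2, by omega⟩ : Fin (m + 4)) p).card = (p : ℕ) - 1 := by
    rw [Fin.card_Icc]
    simp only
    omega
  rw [← h1]
  apply Finset.card_le_card
  intro j hj
  rw [Finset.mem_Icc] at hj
  rw [Finset.mem_filter]
  refine ⟨Finset.mem_univ _, hj.2, ?_⟩
  have h2 : 2 ≤ (j : ℕ) := hj.1
  have h3 : (j : ℕ) ≤ p := hj.2
  have h4 : (p : ℕ) ≤ q := hpq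
  show ((vp m j : Fin (m + 4)) : ℕ) ≤ q
  rw [vp_val]
  split_ifs with h
  · rcases h with h | h <;> omega
  · omega

/-- upper bound for the ranks of `v` -/
lemma rk_le (m : ℕ) (p q : Fin (m + 4)) :
    rk (vp m) p q ≤ (p : ℕ) + q + 2 - (m + 4) ∨
      rk (vp m) p q + 2 + ((p : ℕ) - q) ≤ (p : ℕ) + 1 ∨ rk (vp m) p q = 0 := by
  have hp := p.isLt
  have hq := q.isLt
  have hv : ∀ j : Fin (m + 4), ((vp m j : Fin (m + 4)) : ℕ) =
    if (j : ℕ) < 2 ∨ m + 2 ≤ (j : ℕ) then m + 3 - j else j := vp_val m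
  have cIic : ∀ k : Fin (m + 4), (Finset.Iic k).card = (k : ℕ) + 1 := fun k => by
    rw [Fin.card_Iic]
  by_cases hA : (q : ℕ) = m + 3
  · left
    have h1 : rk (vp m) p q ≤ (Finset.Iic p).card := by
      apply Finset.card_le_card
      intro j hj
      rw [Finset.mem_filter] at hj
      rw [Finset.mem_Iic]
      exact hj.2.1
    rw [cIic] at h1
    omega
  by_cases hB : (q : ℕ) = m + 2
  · left
    have h1 : rk (vp m) p q ≤ ((Finset.Iic p).erase 0).card := by
      apply Finset.card_le_card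
      intro j hj
      rw [Finset.mem_filter] at hj
      rw [Finset.mem_erase, Finset.mem_Iic]
      refine ⟨?_, hj.2.1⟩
      rintro rfl
      have h2 : ((vp m 0 : Fin (m + 4)) : ℕ) ≤ q := hj.2.2
      rw [hv] at h2
      simp at h2
      omega
    rw [Finset.card_erase_of_mem (by rw [Finset.mem_Iic]; exact Fin.zero_le _), cIic] at h1
    omega
  have himg : rk (vp m) p q = ((univ.filter fun j : Fin (m + 4) => j ≤ p ∧ vp m j ≤ q).image
      (vp m)).card := by
    rw [Finset.card_image_of_injective _ (vp m).injective]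
    rfl
  by_cases hC : (p : ℕ) = m + 3
  · left
    have h1 : rk (vp m) p q ≤ (Finset.Iic q).card := by
      rw [himg]
      apply Finset.card_le_card
      intro j hj
      rw [Finset.mem_image] at hj
      obtain ⟨i, hi, rfl⟩ := hj
      rw [Finset.mem_filter] at hi
      rw [Finset.mem_Iic]
      exact hi.2.2
    rw [cIic] at h1
    omega
  by_cases hD : (p : ℕ) = m + 2
  · left
    have h1 : rk (vp m) p q ≤ ((Finset.Iic q).erase 0).card := by
      rw [himg]
      apply Finset.card_le_card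
      intro j hj
      rw [Finset.mem_image] at hj
      obtain ⟨i, hi, rfl⟩ := hj
      rw [Finset.mem_filter] at hi
      rw [Finset.mem_erase, Finset.mem_Iic]
      refine ⟨?_, hi.2.2⟩
      intro h0
      have h2 : ((vp m i : Fin (m + 4)) : ℕ) = 0 := by rw [h0]; rfl
      rw [hv] at h2
      have h3 : (i : ℕ) ≤ p := hi.2.1
      split_ifs at h2 with h4 <;> omega
    rw [Finset.card_erase_of_mem (by rw [Finset.mem_Iic]; exact Fin.zero_le _), cIic] at h1
    omega
  right
  have hsub : ∀ j : Fin (m + 4), j ≤ p → vp m j ≤ q → 2 ≤ (j : ℕ) ∧ (j : ℕ) ≤ p ∧ (j : ℕ) ≤ q := by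
    intro j hj1 hj2
    have h1 : (j : ℕ) ≤ p := hj1
    have h2 : ((vp m j : Fin (m + 4)) : ℕ) ≤ q := hj2
    rw [hv] at h2
    split_ifs at h2 with h3 <;> omega
  by_cases hE : (p : ℕ) < 2 ∨ (q : ℕ) < 2
  · right
    unfold rk
    rw [Finset.card_eq_zero, Finset.filter_eq_empty_iff]
    rintro j _ ⟨hj1, hj2⟩
    have := hsub j hj1 hj2
    omega
  · left
    have h1 : rk (vp m) p q ≤ (Finset.Icc (⟨2, by omega⟩ : Fin (m + 4)) (min p q)).card := by
      apply Finset.card_le_card
      intro j hj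
      rw [Finset.mem_filter] at hj
      have h2 := hsub j hj.2.1 hj.2.2
      rw [Finset.mem_Icc]
      refine ⟨?_, ?_⟩
      · show 2 ≤ (j : ℕ)
        exact h2.1
      · rw [le_min_iff]
        exact ⟨h2.2.1, h2.2.2⟩
    rw [Fin.card_Icc] at h1
    rcases le_total p q with hpq | hpq
    · rw [min_eq_left hpq] at h1
      have hpq' : (p : ℕ) ≤ q := hpq
      simp only at h1
      omega
    · rw [min_eq_right hpq] at h1
      have hpq' : (q : ℕ) ≤ p := hpq
      simp only at h1
      omega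

/-- restriction of vectors to the coordinates `> q` -/
noncomputable def Lq (q : Fin n) : (Fin n → ℂ) →ₗ[ℂ] ({a : Fin n // q < a} → ℂ) :=
  LinearMap.funLeft ℂ ℂ Subtype.val

lemma ker_Lq (q : Fin n) : LinearMap.ker (Lq q) = Est q := by
  ext y
  rw [LinearMap.mem_ker]
  constructor
  · intro h a ha
    exact congrFun h ⟨a, ha⟩
  · intro h
    funext a
    exact h a.1 a.2

lemma card_gt (q : Fin n) : Fintype.card {a : Fin n // q < a} = n - 1 - q := by
  rw [Fintype.card_subtype]
  have : (univ.filter fun j : Fin n => q < j) = Finset.Ioi q := by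
    ext j
    simp
  rw [this, Fin.card_Ioi]

lemma card_gt_le (p q : Fin n) : Fintype.card {a : Fin n // q < a ∧ a ≤ p} = (p : ℕ) - q := by
  rw [Fintype.card_subtype]
  have : (univ.filter fun j : Fin n => q < j ∧ j ≤ p) = Finset.Ioc q p := by
    ext j
    simp
  rw [this, Fin.card_Ioc]

/-- first bound for the dimension of the intersections -/
lemma inter_ge1 (z : Co n → ℂ) (p q : Fin n) :
    (p : ℕ) + 1 ≤ Module.finrank ℂ (Fl 1 z p ⊓ Est q : Submodule ℂ (Fin n → ℂ)) +
      (n - 1 - (q : ℕ)) := by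
  have h1 := rank_null (Fl 1 z p) (Lq q)
  rw [ker_Lq, finrank_Fl] at h1
  have h2 : Module.finrank ℂ ((Fl 1 z p).map (Lq q)) ≤ n - 1 - (q : ℕ) := by
    refine (Submodule.finrank_le _).trans ?_
    rw [Module.finrank_fintype_fun_eq_card, card_gt]
  omega

/-- second bound for the dimension of the intersections, for sums of two rank one matrices -/
lemma inter_ge2 (u v : Fin 2 → Fin n → ℂ) (p q : Fin n) :
    (p : ℕ) + 1 ≤ Module.finrank ℂ (Fl 1 (lowS u v) p ⊓ Est q : Submodule ℂ (Fin n → ℂ)) +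
      (2 + ((p : ℕ) - q)) := by
  classical
  have h1 := rank_null (Fl 1 (lowS u v) p) (Lq q)
  rw [ker_Lq, finrank_Fl] at h1
  let B : Fin 2 ⊕ {a : Fin n // q < a ∧ a ≤ p} → ({a : Fin n // q < a} → ℂ) :=
    Sum.elim (fun i => Lq q (u i)) (fun a => Pi.single ⟨a.1, a.2.1⟩ 1)
  have h2 : (Fl 1 (lowS u v) p).map (Lq q) ≤ Submodule.span ℂ (Set.range B) := by
    rw [Submodule.map_le_iff_le_comap, Fl_eq, Submodule.span_le]
    rintro _ ⟨j, rfl⟩
    show Lq q (colV 1 (lowS u v) j.1) ∈ Submodule.span ℂ (Set.range B)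
    have hw : Lq q (colV 1 (lowS u v) j.1) = (∑ i, v i j.1 • Lq q (u i)) +
        ∑ a : {a : Fin n // q < a ∧ a ≤ p}, (Um (lowS u v) a.1 j.1 - ∑ i, v i j.1 * u i a.1) •
          (Pi.single ⟨a.1, a.2.1⟩ 1 : {a : Fin n // q < a} → ℂ) := by
      funext a
      rw [Pi.add_apply, Finset.sum_apply, Finset.sum_apply]
      have e1 : ∀ i, (v i j.1 • Lq q (u i)) a = v i j.1 * u i a.1 := fun i => rfl
      simp only [e1]
      by_cases ha : a.1 ≤ p
      · rw [Finset.sum_eq_single (⟨a.1, a.2, ha⟩ : {a : Fin n // q < a ∧ a ≤ p})]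
        · rw [Pi.smul_apply, Pi.single_eq_same, smul_eq_mul, mul_one]
          show Um (lowS u v) a.1 j.1 = _
          ring
        · intro b _ hb
          rw [Pi.smul_apply, Pi.single_eq_of_ne, smul_zero]
          intro hh
          apply hb
          apply Subtype.ext
          exact (congrArg Subtype.val hh).symm
        · simp
      · have hz : ∑ b : {a : Fin n // q < a ∧ a ≤ p},
            ((Um (lowS u v) b.1 j.1 - ∑ i, v i j.1 * u i b.1) •
            (Pi.single ⟨b.1, b.2.1⟩ 1 : {a : Fin n // q < a} → ℂ)) a = 0 := by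
          apply Finset.sum_eq_zero
          intro b _
          rw [Pi.smul_apply, Pi.single_eq_of_ne, smul_zero]
          intro hh
          apply ha
          rw [hh]
          exact b.2.2
        rw [hz, add_zero]
        show Um (lowS u v) a.1 j.1 = _
        have hja : j.1 < a.1 := lt_of_le_of_lt j.2 (not_le.1 ha)
        unfold Um
        rw [dif_pos hja]
        unfold lowS
        refine Finset.sum_congr rfl fun i _ => ?_
        simp only
        ring
    rw [hw]
    refine Submodule.add_mem _ (Submodule.sum_mem _ fun i _ => ?_)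
      (Submodule.sum_mem _ fun a _ => ?_)
    · exact Submodule.smul_mem _ _ (Submodule.subset_span ⟨Sum.inl i, rfl⟩)
    · exact Submodule.smul_mem _ _ (Submodule.subset_span ⟨Sum.inr a, rfl⟩)
  have h3 := Submodule.finrank_mono h2
  have h4 := finrank_range_le_card (R := ℂ) B
  rw [Fintype.card_sum, Fintype.card_fin, card_gt_le] at h4
  have h5 : Module.finrank ℂ (Submodule.span ℂ (Set.range B)) ≤ 2 + ((p : ℕ) - q) := h4
  omega

/-- sums of two rank one matrices belong to the Schubert variety -/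
lemma low_mem (m : ℕ) (u v : Fin 2 → Fin (m + 4) → ℂ) : lowS u v ∈ SV 1 (vp m) := by
  intro p q
  have h1 := inter_ge1 (lowS u v) p q
  have h2 := inter_ge2 u v p q
  have hp := p.isLt
  have hq := q.isLt
  rcases rk_le m p q with h | h | h
  · omega
  · omega
  · rw [h]
    exact Nat.zero_le _

/-- the minors of size three vanish on the Schubert variety -/
lemma minor_mem (m : ℕ) (r c : Fin (2 + 1) → Fin (m + 4)) (h : IsCh 2 r c) :
    (Matrix.of fun i j => (xx (r i) (c j) : MvPolynomial (Co (m + 4)) ℂ)).det ∈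
      vanishingIdeal ℂ (SV 1 (vp m)) := by
  rw [mem_vanishingIdeal_iff]
  intro z hz
  rw [AlgHom.map_det]
  have hM : (aeval z : MvPolynomial (Co (m + 4)) ℂ →ₐ[ℂ] ℂ).mapMatrix
      (Matrix.of fun i j => (xx (r i) (c j) : MvPolynomial (Co (m + 4)) ℂ)) =
      Matrix.of fun i j => Um z (r i) (c j) := by
    ext i j
    rw [AlgHom.mapMatrix_apply, Matrix.map_apply, Matrix.of_apply, Matrix.of_apply]
    have hij : c j < r i := h.hl j i
    unfold xx Um
    rw [dif_pos hij, dif_pos hij, aeval_X]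
  rw [hM]
  by_contra hdet
  set M : Matrix (Fin (2 + 1)) (Fin (2 + 1)) ℂ := Matrix.of fun i j => Um z (r i) (c j) with hMdef
  have hunit : IsUnit M := by
    rw [Matrix.isUnit_iff_isUnit_det]
    exact isUnit_iff_ne_zero.2 hdet
  have hli : LinearIndependent ℂ M.col := Matrix.linearIndependent_cols_iff_isUnit.2 hunit
  let p : Fin (m + 4) := c 0
  have hr0 : 0 < (r 0 : ℕ) := lt_of_le_of_lt (Nat.zero_le _) (h.hl 0 0)
  let q : Fin (m + 4) := ⟨(r 0 : ℕ) - 1, by have := (r 0).isLt; omega⟩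
  have hpq : p ≤ q := by
    show (c 0 : ℕ) ≤ (r 0 : ℕ) - 1
    have : (c 0 : ℕ) < r 0 := h.hl 0 0
    omega
  have hp2 : 2 ≤ (p : ℕ) := by
    have h1 : (c 1 : ℕ) < c 0 := h.hc (by decide : (0 : Fin (2 + 1)) < 1)
    have h2 : (c 2 : ℕ) < c 1 := h.hc (by decide : (1 : Fin (2 + 1)) < 2)
    show 2 ≤ (c 0 : ℕ)
    omega
  let L : (Fin (m + 4) → ℂ) →ₗ[ℂ] (Fin (2 + 1) → ℂ) := LinearMap.funLeft ℂ ℂ r
  have h1 := rank_null (Fl 1 z p) L
  rw [finrank_Fl] at h1
  have h2 : 3 ≤ Module.finrank ℂ ((Fl 1 z p).map L) := by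
    have h3 : Submodule.span ℂ (Set.range M.col) ≤ (Fl 1 z p).map L := by
      rw [Submodule.span_le]
      rintro _ ⟨j, rfl⟩
      refine ⟨colV 1 z (c j), ?_, ?_⟩
      · exact Submodule.subset_span ⟨c j, h.hc.antitone (Fin.zero_le j), rfl⟩
      · funext i
        rfl
    have h4 := Submodule.finrank_mono h3
    rw [finrank_span_eq_card hli, Fintype.card_fin] at h4
    exact h4
  have h5 : Module.finrank ℂ (Fl 1 z p ⊓ Est q : Submodule ℂ (Fin (m + 4) → ℂ)) ≤
      Module.finrank ℂ (Fl 1 z p ⊓ LinearMap.ker L : Submodule ℂ (Fin (m + 4) → ℂ)) := by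
    apply Submodule.finrank_mono
    apply inf_le_inf le_rfl
    intro y hy
    rw [LinearMap.mem_ker]
    funext i
    show y (r i) = 0
    apply hy
    show (r 0 : ℕ) - 1 < r i
    have : (r 0 : ℕ) ≤ r i := h.hr.monotone (Fin.zero_le i)
    omega
  have h6 := hz p q
  have h7 := rk_ge m p q hpq hp2
  omega

/-- the Schubert variety `X_v` at the identity -/
theorem good2 (m : ℕ) : Good2 2 (SV 1 (vp m)) := ⟨low_mem m, minor_mem m⟩

/-- **The conjecture is false for each `n ≥ 9`**: `X_v`, `v = n (n-1) 3 4 ... (n-2) 2 1`, has at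
`e_id` a multiplicity larger than the Catalan number `C_(n-2)`. -/
theorem main (m : ℕ) (hm : 5 ≤ m) :
    ∃ e, IsMult (SV 1 (vp m)) e ∧ catalan (m + 4 - 2) < e := by
  refine ⟨_, isMult_of_faces (good2 m) (4 * m + 6) _ (card_face_le m) rfl ?_, ?_⟩
  · exact lt_of_lt_of_le (lt_of_le_of_lt (Nat.zero_le _) (catalan_lt_cnt m hm)) (cnt_le_card m)
  · exact lt_of_lt_of_le (catalan_lt_cnt m hm) (cnt_le_card m)

end MP1c6e58.CAT
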