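import Mathlib
import Pool.Agent.Work.MP_1c6e58_ag.SH.P_LMON
import Pool.Agent.Work.MP_1c6e58_ag.SH.P_COVER
import Pool.Agent.Work.MP_1c6e58_ag.SH.P_LSW
import Pool.Agent.Work.MP_1c6e58_ag.SH.P_BPO
import Pool.Agent.Work.MP_1c6e58_ag.CAT.Geo

/-!
Each element of `I_k` is above a minimal element of `I_k`.
-/

namespace MP1c6e58.CAT

open Finset Pool.Agent.SH

/-- the lengths in a Bruhat relation -/
lemma lmon : St_LMON := I_LMON I_BPO I_COVER I_LSW

/-- a measure which increases along the order -/
def meas (A : Itv) : ℕ := A.n + (len A.v - len A.u)

lemma eq_of_pat {n : ℕ} {v w : Equiv.Perm (Fin n)} (h : ∀ j k, w j < w k ↔ v j < v k) :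
    v = w := by
  have h1 : StrictMono (fun a => v (w.symm a)) := by
    intro a b hab
    have := (h (w.symm a) (w.symm b)).1 (by simpa using hab)
    exact this
  have h2 : ∀ a, v (w.symm a) = a := by
    intro a
    have h3 : (fun a => v (w.symm a)) = id := by
      have := Subsingleton.elim (h1.orderIsoOfSurjective _ (v.surjective.comp w.symm.surjective))
        (OrderIso.refl (Fin n))
      funext x
      exact congrArg (fun (f : Fin n ≃o Fin n) => f x) this
    exact congrFun h3 a
  ext j
  have := h2 (w j)
  simp only [Equiv.symm_apply_apply] at this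
  rw [this]

lemma step {A B : Itv} (h : Emb A B ∨ Up A B) : A = B ∨ meas A < meas B := by
  rcases h with h | h
  · obtain ⟨φ, hp, hu, hfix, hl⟩ := h
    have hle : A.n ≤ B.n := by
      have := Fintype.card_le_of_embedding φ.toEmbedding
      simpa using this
    have hA := (lmon A.n A.u A.v A.le).1
    have hB := (lmon B.n B.u B.v B.le).1
    rcases lt_or_eq_of_le hle with h1 | h1
    · right
      unfold meas
      omega
    · left
      obtain ⟨n, u, v, hle1⟩ := A
      obtain ⟨n', u', v', hle2⟩ := B
      simp only at h1
      subst h1
      have hφ : ∀ j, φ j = j := by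
        intro j
        have hs : Function.Surjective φ := Finite.injective_iff_surjective.1 φ.injective
        have := Subsingleton.elim ((φ.strictMono).orderIsoOfSurjective _ hs)
          (OrderIso.refl (Fin n))
        exact congrArg (fun (f : Fin n ≃o Fin n) => f j) this
      have hv : v = v' := by
        apply eq_of_pat
        intro j k
        have := hp j k
        simp only [hφ] at this
        exact this
      have hu' : u = u' := by
        ext j
        have := hu j
        simp only [hφ] at this
        rw [this]
        have h5 : v' ((Equiv.symm v) (u j)) = v ((Equiv.symm v) (u j)) := by rw [hv]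
        rw [h5, Equiv.apply_symm_apply]
      subst hv
      subst hu'
      rfl
  · obtain ⟨n, u, u', v, h1, h2, h3, rfl, rfl⟩ := h
    have ha := lmon n u' u h3
    have hb := (lmon n u v h1).1
    rcases lt_or_eq_of_le ha.1 with h4 | h4
    · right
      unfold meas
      simp only
      omega
    · left
      have := ha.2 h4
      subst this
      rfl

lemma prec_meas {A B : Itv} (h : Prec A B) : A = B ∨ meas A < meas B := by
  induction h with
  | refl => left; rfl
  | tail _ hs ih =>
    rcases step hs with h1 | h1
    · subst h1
      exact ih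
    · rcases ih with h2 | h2
      · subst h2
        exact Or.inr h1
      · exact Or.inr (h2.trans h1)

/-- **Each element of `I_k` is above a minimal element of `I_k`.** -/
theorem exists_min (k : ℕ) : ∀ (s : ℕ) (A : Itv), meas A ≤ s → InI k A →
    ∃ B, MinI k B ∧ Prec B A := by
  intro s
  induction s using Nat.strong_induction_on with
  | _ s ih =>
    intro A hs hA
    by_cases h : MinI k A
    · exact ⟨A, h, Relation.ReflTransGen.refl⟩
    · unfold MinI at h
      push Not at h
      obtain ⟨B, hB, hBA, hne⟩ := h hA
      have h1 : meas B < meas A := (prec_meas hBA).resolve_left hne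
      obtain ⟨C, hC, hCB⟩ := ih (meas B) (lt_of_lt_of_le h1 hs) B le_rfl hB
      exact ⟨C, hC, Relation.ReflTransGen.trans hCB hBA⟩

lemma prec_n {A B : Itv} (h : Prec A B) : A.n ≤ B.n := by
  induction h with
  | refl => exact le_rfl
  | tail _ hs ih =>
    refine ih.trans ?_
    rcases hs with h1 | h1
    · obtain ⟨φ, _⟩ := h1
      have := Fintype.card_le_of_embedding φ.toEmbedding
      simpa using this
    · obtain ⟨n, u, u', v, h1, h2, h3, rfl, rfl⟩ := h1
      exact le_rfl

end MP1c6e58.CAT
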