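import Mathlib
import Pool.Agent.Work.MP_1c6e58_ag.CAT.MinEx

/-!
Final form.
-/

namespace MP1c6e58.CAT

open Finset Pool.Agent.SH

/-- For every `n ≥ 9` there are a Schubert variety in the flags of `ℂ^n` with a point of
multiplicity larger than `C_(n-2)` (`v = n (n-1) 3 4 ... (n-2) 2 1`, at `e_id`), and a minimal
element of some `I_k`, `k > C_(n-2)`, in `S_m`, `m ≤ n`, of multiplicity `k`. -/
theorem final (n : ℕ) (hn : 9 ≤ n) :
    (∃ v : Equiv.Perm (Fin n),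
      (∀ j : Fin n, (v j : ℕ) = if (j : ℕ) = 0 then n - 1 else if (j : ℕ) = 1 then n - 2 else
        if (j : ℕ) = n - 2 then 1 else if (j : ℕ) = n - 1 then 0 else j) ∧
      Br 1 v ∧ ∃ e, IsMult (SV 1 v) e ∧ catalan (n - 2) < e) ∧
    ∃ (k : ℕ) (B : Itv), catalan (n - 2) < k ∧ B.n ≤ n ∧ MinI k B ∧ MultAt B k := by
  obtain ⟨m, rfl⟩ : ∃ m, n = m + 4 := ⟨n - 4, by omega⟩
  obtain ⟨e, he1, he2⟩ := main m (by omega)
  refine ⟨⟨vp m, ?_, br_one (vp m), e, he1, he2⟩, ?_⟩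
  · intro j
    rw [vp_val]
    have := j.isLt
    split_ifs <;> omega
  · have hA : InI e ⟨m + 4, 1, vp m, br_one (vp m)⟩ := ⟨e, le_rfl, he1⟩
    obtain ⟨B, hB, hBA⟩ := exists_min e _ _ le_rfl hA
    obtain ⟨e', h1, h2⟩ := hB.1
    refine ⟨e', B, lt_of_lt_of_le he2 h1, prec_n hBA, ⟨⟨e', le_rfl, h2⟩, ?_⟩, h2⟩
    intro C hC hCB
    obtain ⟨e'', h3, h4⟩ := hC
    exact hB.2 C ⟨e'', h1.trans h3, h4⟩ hCB

end MP1c6e58.CAT
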