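import Mathlib
import Pool.Agent.Work.MP_1c6e58_ag.CAT.GIndep
import Pool.Agent.Work.MP_1c6e58_ag.CAT.Straight

/-!
Systems of south-west regions with rank bounds, standard exponents.
-/

namespace MP1c6e58.CAT

namespace G

open Finset MvPolynomial Pool.Agent.SH

/-- a chain system of regions: region `k` consists of the cells in the rows `≥ a k` and the
columns `< b k`; `δ k` bounds the rank on it -/
structure Sys (m : ℕ) where
  a : Fin m → ℕ
  b : Fin m → ℕ
  δ : Fin m → ℕ
  ha : Monotone a
  hb : Monotone b

variable {n m : ℕ}

/-- the cell `p` is in the region `k` -/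
def reg (S : Sys m) (k : Fin m) (p : Fin n × Fin n) : Prop := S.a k ≤ (p.1 : ℕ) ∧ (p.2 : ℕ) < S.b k

instance (S : Sys m) (k : Fin m) (p : Fin n × Fin n) : Decidable (reg S k p) := by
  unfold reg; infer_instance

/-- regions are closed in the direction south-west -/
lemma reg_SW (S : Sys m) (k : Fin m) (p q : Fin n × Fin n) (hp : reg S k p) (h : SW q p) :
    reg S k q := by
  have h1 : (p.1 : ℕ) < q.1 := h.1
  have h2 : (q.2 : ℕ) < p.2 := h.2
  unfold reg at *
  omega

/-- the pieces: levels, and single free cells -/
abbrev Pc (n D : ℕ) := Fin D ⊕ (Fin n × Fin n)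

/-- the cells of a piece -/
def pcs (S : Sys m) (D : ℕ) : Pc n D → Fin n × Fin n → Prop
  | Sum.inl t, p => (∃ k, reg S k p) ∧ ∀ k, reg S k p → (t : ℕ) < S.δ k
  | Sum.inr f, p => p = f ∧ ∀ k, ¬ reg S k p

instance (S : Sys m) (D : ℕ) : ∀ κ : Pc n D, DecidablePred (pcs S D κ)
  | Sum.inl t => fun p => by unfold pcs; infer_instance
  | Sum.inr f => fun p => by unfold pcs; infer_instance

/-- exponents in all entries that are standard for the system -/
def StdE (S : Sys m) (e : Ex n) : Prop := ∀ k, ∀ p ∈ EE e.support (S.δ k), ¬ reg S k p

/-- standard exponents are sums of chains in the pieces -/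
lemma isChainSum_of_std (S : Sys m) (D : ℕ) (hD : ∀ k, S.δ k ≤ D) (e : Ex n) (h : StdE S e) :
    IsChainSum (pcs S D) e := by
  classical
  refine ⟨fun κ => match κ with
    | Sum.inl t => e.filter fun p => (∃ k, reg S k p) ∧ p ∈ EE e.support t ∧
        p ∉ EE e.support (t + 1)
    | Sum.inr f => e.filter fun p => p = f ∧ ∀ k, ¬ reg S k p, ?_, ?_, ?_⟩
  · intro κ a b c d hac hdb hab
    rcases κ with t | f
    · by_contra hcd
      simp only [Finsupp.filter_apply] at hab hcd
      have h1 : (∃ k, reg S k ((a, b) : Fin n × Fin n)) ∧ ((a, b) : Fin n × Fin n) ∈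
          EE e.support t ∧ ((a, b) : Fin n × Fin n) ∉ EE e.support (t + 1) := by
        by_contra hh
        exact hab (if_neg hh)
      have h2 : (∃ k, reg S k ((c, d) : Fin n × Fin n)) ∧ ((c, d) : Fin n × Fin n) ∈
          EE e.support t ∧ ((c, d) : Fin n × Fin n) ∉ EE e.support (t + 1) := by
        by_contra hh
        exact hcd (if_neg hh)
      apply h1.2.2
      unfold EE
      rw [Finset.mem_filter]
      exact ⟨h1.2.1, (c, d), h2.2.1, hac, hdb⟩
    · by_contra hcd
      simp only [Finsupp.filter_apply] at hab hcd
      have h1 : ((a, b) : Fin n × Fin n) = f := by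
        by_contra hh
        exact hab (if_neg fun h3 => hh h3.1)
      have h2 : ((c, d) : Fin n × Fin n) = f := by
        by_contra hh
        exact hcd (if_neg fun h3 => hh h3.1)
      have h3 := h1.trans h2.symm
      have h4 : a = c := congrArg Prod.fst h3
      exact absurd h4 hac.ne
  · intro κ p hp
    rcases κ with t | f
    · simp only [Finsupp.filter_apply] at hp
      have h1 : (∃ k, reg S k p) ∧ p ∈ EE e.support t ∧ p ∉ EE e.support (t + 1) := by
        by_contra hh
        exact hp (if_neg hh)
      refine ⟨h1.1, fun k hk => ?_⟩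
      by_contra hlt
      exact h k p (EE_antitone e.support (not_lt.1 hlt) h1.2.1) hk
    · simp only [Finsupp.filter_apply] at hp
      by_contra hh
      exact hp (if_neg hh)
  · ext p
    rw [Finsupp.finsetSum_apply, Fintype.sum_sum_type]
    simp only [Finsupp.filter_apply]
    by_cases hp : p ∈ e.support
    · by_cases hreg : ∃ k, reg S k p
      · have h2 : ∑ f : Fin n × Fin n, (if p = f ∧ ∀ k, ¬ reg S k p then e p else 0) = 0 := by
          apply Finset.sum_eq_zero
          intro f _
          rw [if_neg]
          rintro ⟨_, h3⟩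
          obtain ⟨k, hk⟩ := hreg
          exact h3 k hk
        rw [h2, add_zero]
        have hex : ∃ k, p ∉ EE e.support k := by
          obtain ⟨k, hk⟩ := hreg
          exact ⟨S.δ k, fun hh => h k p hh hk⟩
        obtain ⟨k, hk, hk'⟩ : ∃ k, p ∉ EE e.support k ∧ ∀ j < k, p ∈ EE e.support j :=
          ⟨Nat.find hex, Nat.find_spec hex, fun j hj => by
            have := Nat.find_min hex hj
            simpa using this⟩
        have hkD : k ≤ D := by
          obtain ⟨k0, hk0⟩ := hreg
          by_contra hlt
          exact h k0 p (hk' _ (by have := hD k0; omega)) hk0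
        have hk0 : 0 < k := by
          rcases Nat.eq_zero_or_pos k with h0 | h0
          · subst h0
            exact absurd hp hk
          · exact h0
        rw [Finset.sum_eq_single (⟨k - 1, by omega⟩ : Fin D)]
        · rw [if_pos]
          refine ⟨hreg, hk' _ (by simp only; omega), ?_⟩
          have : k - 1 + 1 = k := by omega
          simp only [this]
          exact hk
        · intro j _ hj
          rw [if_neg]
          rintro ⟨_, h1, h2⟩
          apply hj
          apply Fin.ext
          simp only
          rcases lt_trichotomy (j : ℕ) (k - 1) with h3 | h3 | h3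
          · exact absurd (hk' (j + 1) (by omega)) h2
          · exact h3
          · exact absurd (EE_antitone e.support (show k ≤ (j : ℕ) by omega) h1) hk
        · simp
      · have h2 : ∑ t : Fin D, (if (∃ k, reg S k p) ∧ p ∈ EE e.support t ∧
            p ∉ EE e.support (t + 1) then e p else 0) = 0 := by
          apply Finset.sum_eq_zero
          intro t _
          rw [if_neg]
          rintro ⟨h3, _⟩
          exact hreg h3
        rw [h2, zero_add, Finset.sum_eq_single p]
        · rw [if_pos]
          exact ⟨rfl, fun k hk => hreg ⟨k, hk⟩⟩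
        · intro f _ hf
          rw [if_neg]
          rintro ⟨h3, _⟩
          exact hf h3.symm
        · simp
    · rw [Finsupp.notMem_support_iff] at hp
      simp [hp]

end G

end MP1c6e58.CAT
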