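import Mathlib
import Pool.Agent.Work.MP_1c6e58_ag.CAT.GStd
import Pool.Agent.Work.MP_1c6e58_ag.CAT.Count

/-!
General form of the straightening and of the Hilbert-Samuel function.
-/

namespace MP1c6e58.CAT

namespace G

open Finset MvPolynomial Pool.Agent.SH

variable {n m : ℕ} {σ : Type} (ι : σ ↪ Fin n × Fin n)

/-- exponents in the variables as exponents in all entries -/
noncomputable def upx (e : σ →₀ ℕ) : Ex n := e.mapDomain ι

lemma upx_apply (e : σ →₀ ℕ) (s : σ) : upx ι e (ι s) = e s :=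
  Finsupp.mapDomain_apply ι.injective _ _

lemma upx_support [DecidableEq σ] (e : σ →₀ ℕ) : (upx ι e).support = e.support.map ι := by
  classical
  unfold upx
  rw [Finsupp.mapDomain_support_of_injective ι.injective, Finset.map_eq_image]

lemma degree_upx (e : σ →₀ ℕ) : (upx ι e).degree = e.degree := by
  unfold upx
  induction e using Finsupp.induction_linear with
  | zero => simp
  | add f g hf hg => rw [Finsupp.mapDomain_add, map_add, map_add, hf, hg]
  | single a b => rw [Finsupp.mapDomain_single]; simp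

/-- the weight -/
def wt (e : σ →₀ ℕ) : ℕ := e.sum fun p k => k * (((ι p).1 : ℕ) * ((ι p).2 : ℕ))

lemma wt_add (e e' : σ →₀ ℕ) : wt ι (e + e') = wt ι e + wt ι e' := by
  unfold wt
  rw [Finsupp.sum_add_index' (by simp) (by intro a b c; exact add_mul _ _ _)]

lemma wt_single (p : σ) : wt ι (Finsupp.single p 1) = ((ι p).1 : ℕ) * ((ι p).2 : ℕ) := by
  unfold wt
  simp

lemma wt_sum {τ : Type*} (s : Finset τ) (f : τ → σ →₀ ℕ) :
    wt ι (∑ i ∈ s, f i) = ∑ i ∈ s, wt ι (f i) := by
  classical
  induction s using Finset.induction_on with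
  | empty => simp [wt]
  | insert i s hi ih => rw [Finset.sum_insert hi, Finset.sum_insert hi, wt_add, ih]

lemma wt_le (e : σ →₀ ℕ) : wt ι e ≤ e.degree * (n * n) := by
  unfold wt
  rw [Finsupp.degree_apply, Finsupp.sum, Finset.sum_mul]
  refine Finset.sum_le_sum fun p _ => ?_
  exact Nat.mul_le_mul_left _ (Nat.mul_le_mul (ι p).1.isLt.le (ι p).2.isLt.le)

open Classical in
/-- the entries of the matrix of variables -/
noncomputable def xx (p : Fin n × Fin n) : MvPolynomial σ ℂ :=
  if h : ∃ s, ι s = p then X h.choose else 0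

lemma xx_eq (s : σ) : xx ι (ι s) = X s := by
  unfold xx
  have h : ∃ s', ι s' = ι s := ⟨s, rfl⟩
  rw [dif_pos h]
  congr 1
  exact ι.injective h.choose_spec

/-- chains of cells in a region -/
structure IsCh (S : Sys m) (k : Fin m) (r c : Fin (S.δ k + 1) → Fin n) : Prop where
  hr : StrictMono r
  hc : StrictAnti c
  h0 : reg S k (r 0, c 0)

lemma IsCh.all {S : Sys m} {k : Fin m} {r c : Fin (S.δ k + 1) → Fin n} (h : IsCh S k r c)
    (i j : Fin (S.δ k + 1)) : reg S k (r i, c j) := by
  have h1 : (r 0 : ℕ) ≤ r i := h.hr.monotone (Fin.zero_le i)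
  have h2 : (c j : ℕ) ≤ c 0 := h.hc.antitone (Fin.zero_le j)
  have h3 := h.h0
  unfold reg at *
  simp only at *
  omega

/-- all cells of the regions are variables -/
def Full (S : Sys m) : Prop := ∀ k p, reg S k p → ∃ s, ι s = p

/-- rearrangement -/
lemma rearr {ρ : ℕ} (r c : Fin (ρ + 1) → Fin n) (hr : StrictMono r) (hc : StrictAnti c)
    (τ : Equiv.Perm (Fin (ρ + 1))) (hτ : τ ≠ 1) :
    ∑ i, ((r i : ℕ) * (c i : ℕ)) < ∑ i, ((r (τ i) : ℕ) * (c i : ℕ)) := by
  have hav : Antivary (fun i => (r i : ℕ)) (fun i => (c i : ℕ)) := by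
    intro i j hij
    have h1 : c i < c j := hij
    have h2 : j < i := hc.lt_iff_gt.1 h1
    exact hr.monotone h2.le
  have h2 := (hav.sum_smul_lt_sum_comp_perm_smul_iff (σ := τ)).2
  simp only [smul_eq_mul] at h2
  apply h2
  intro hA
  apply hτ
  have hmono : StrictMono τ := by
    apply Monotone.strictMono_of_injective _ τ.injective
    intro i j hij
    rcases hij.eq_or_lt with rfl | hij'
    · exact le_rfl
    · have h3 : c j < c i := hc hij'
      have h4 : (r (τ i) : ℕ) ≤ r (τ j) := hA h3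
      exact hr.le_iff_le.1 h4
  have h5 : (⟨τ, hmono.le_iff_le⟩ : Fin (ρ + 1) ≃o Fin (ρ + 1)) = OrderIso.refl _ :=
    Subsingleton.elim _ _
  ext i
  have h6 := congrArg (fun f : Fin (ρ + 1) ≃o Fin (ρ + 1) => f i) h5
  exact congrArg Fin.val h6

/-- the variable of a cell of a region -/
noncomputable def cellv {S : Sys m} (hF : Full ι S) {k : Fin m} {p : Fin n × Fin n}
    (h : reg S k p) : σ := (hF k p h).choose

lemma cellv_spec {S : Sys m} (hF : Full ι S) {k : Fin m} {p : Fin n × Fin n}
    (h : reg S k p) : ι (cellv ι hF h) = p := (hF k p h).choose_spec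

/-- the exponent of the term of the minor for `τ` -/
noncomputable def tt {S : Sys m} (hF : Full ι S) {k : Fin m} {r c : Fin (S.δ k + 1) → Fin n}
    (h : IsCh S k r c) (τ : Equiv.Perm (Fin (S.δ k + 1))) : σ →₀ ℕ :=
  ∑ i, Finsupp.single (cellv ι hF (h.all (τ i) i)) 1

lemma degree_tt {S : Sys m} (hF : Full ι S) {k : Fin m} {r c : Fin (S.δ k + 1) → Fin n}
    (h : IsCh S k r c) (τ : Equiv.Perm (Fin (S.δ k + 1))) : (tt ι hF h τ).degree = S.δ k + 1 := by
  unfold tt
  rw [map_sum]
  simp

lemma wt_tt {S : Sys m} (hF : Full ι S) {k : Fin m} {r c : Fin (S.δ k + 1) → Fin n}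
    (h : IsCh S k r c) (τ : Equiv.Perm (Fin (S.δ k + 1))) :
    wt ι (tt ι hF h τ) = ∑ i, ((r (τ i) : ℕ) * (c i : ℕ)) := by
  unfold tt
  rw [wt_sum]
  refine Finset.sum_congr rfl fun i _ => ?_
  rw [wt_single, cellv_spec]

lemma det_eq {S : Sys m} (hF : Full ι S) {k : Fin m} {r c : Fin (S.δ k + 1) → Fin n}
    (h : IsCh S k r c) :
    (Matrix.of fun i j => (xx ι (r i, c j) : MvPolynomial σ ℂ)).det =
      ∑ τ : Equiv.Perm (Fin (S.δ k + 1)),
        Equiv.Perm.sign τ • monomial (tt ι hF h τ) (1 : ℂ) := by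
  rw [Matrix.det_apply]
  refine Finset.sum_congr rfl fun τ _ => ?_
  congr 1
  unfold tt
  rw [monomial_sum_one]
  refine Finset.prod_congr rfl fun i _ => ?_
  rw [Matrix.of_apply]
  have h1 := cellv_spec ι hF (h.all (τ i) i)
  conv_lhs => rw [← h1]
  rw [xx_eq]
  rfl

/-- straightening -/
theorem straight (S : Sys m) (hF : Full ι S) (I : Ideal (MvPolynomial σ ℂ))
    (hI : ∀ (k : Fin m) (r c : Fin (S.δ k + 1) → Fin n), IsCh S k r c →
      (Matrix.of fun i j => (xx ι (r i, c j) : MvPolynomial σ ℂ)).det ∈ I)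
    (e : σ →₀ ℕ) :
    ∃ g ∈ Submodule.span ℂ {x : MvPolynomial σ ℂ | ∃ e' : σ →₀ ℕ, StdE S (upx ι e') ∧
      e'.degree = e.degree ∧ x = monomial e' 1}, monomial e 1 - g ∈ I := by
  classical
  induction h : e.degree * (n * n) - wt ι e using Nat.strong_induction_on generalizing e with
  | _ N ih =>
  by_cases hstd : StdE S (upx ι e)
  · refine ⟨monomial e 1, Submodule.subset_span ⟨e, hstd, rfl, rfl⟩, ?_⟩
    rw [sub_self]
    exact I.zero_mem
  · unfold StdE at hstd
    push Not at hstd
    obtain ⟨k, p, hp, hpk⟩ := hstd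
    obtain ⟨r, c, hr0, hc0, hS, hlt⟩ := exists_chain _ _ _ hp
    have hrm : StrictMono (fun i : Fin (S.δ k + 1) => r i) := by
      rw [Fin.strictMono_iff_lt_succ]
      intro i
      exact (hlt i i.2).1
    have hcm : StrictAnti (fun i : Fin (S.δ k + 1) => c i) := by
      rw [Fin.strictAnti_iff_succ_lt]
      intro i
      exact (hlt i i.2).2
    have hch : IsCh S k (fun i : Fin (S.δ k + 1) => r i) (fun i : Fin (S.δ k + 1) => c i) := by
      refine ⟨hrm, hcm, ?_⟩
      show reg S k (r 0, c 0)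
      rw [hr0, hc0]
      exact hpk
    -- the exponent of the main term is at most `e`
    have hte : tt ι hF hch 1 ≤ e := by
      intro q
      unfold tt
      rw [Finsupp.finsetSum_apply]
      by_cases hq : ∃ i : Fin (S.δ k + 1), (r i, c i) = ι q
      · obtain ⟨i, hi⟩ := hq
        rw [Finset.sum_eq_single i]
        · have h1 : cellv ι hF (hch.all ((1 : Equiv.Perm (Fin (S.δ k + 1))) i) i) = q := by
            apply ι.injective
            rw [cellv_spec]
            exact hi
          rw [h1, Finsupp.single_eq_same]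
          have h2 := hS i (Nat.lt_succ_iff.1 i.2)
          rw [Finsupp.mem_support_iff, hi, upx_apply] at h2
          omega
        · intro j _ hj
          rw [Finsupp.single_apply, if_neg]
          intro hjq
          apply hj
          have h1 := cellv_spec ι hF (hch.all ((1 : Equiv.Perm (Fin (S.δ k + 1))) j) j)
          rw [hjq, ← hi] at h1
          have h2 := congrArg Prod.fst h1
          exact hrm.injective h2.symm
        · simp
      · rw [Finset.sum_eq_zero]
        · exact Nat.zero_le _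
        · intro i _
          rw [Finsupp.single_apply, if_neg]
          intro hh
          apply hq
          refine ⟨i, ?_⟩
          have h1 := cellv_spec ι hF (hch.all ((1 : Equiv.Perm (Fin (S.δ k + 1))) i) i)
          rw [hh] at h1
          exact h1.symm
    have he0 : e - tt ι hF hch 1 + tt ι hF hch 1 = e := tsub_add_cancel_of_le hte
    set e0 := e - tt ι hF hch 1 with he0def
    have hdeg : ∀ τ, (e0 + tt ι hF hch τ).degree = e.degree := by
      intro τ
      rw [map_add, degree_tt, ← degree_tt ι hF hch 1, ← map_add, he0]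
    have hσ : ∀ τ : Equiv.Perm (Fin (S.δ k + 1)), τ ≠ 1 → ∃ g ∈ Submodule.span ℂ
        {x : MvPolynomial σ ℂ | ∃ e' : σ →₀ ℕ, StdE S (upx ι e') ∧
        e'.degree = e.degree ∧ x = monomial e' 1}, monomial (e0 + tt ι hF hch τ) 1 - g ∈ I := by
      intro τ hne
      have h1 : wt ι e < wt ι (e0 + tt ι hF hch τ) := by
        conv_lhs => rw [← he0]
        rw [wt_add, wt_add, wt_tt, wt_tt]
        have := rearr _ _ hrm hcm τ hne
        simp only [Equiv.Perm.coe_one, id_eq]
        omega
      have h2 := wt_le ι (e0 + tt ι hF hch τ)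
      rw [hdeg τ] at h2
      have h3 := ih ((e0 + tt ι hF hch τ).degree * (n * n) - wt ι (e0 + tt ι hF hch τ)) (by
        rw [hdeg τ, ← h]; omega) (e0 + tt ι hF hch τ) rfl
      rw [hdeg τ] at h3
      exact h3
    choose! G hG1 hG2 using hσ
    refine ⟨- ∑ τ ∈ (univ : Finset (Equiv.Perm (Fin (S.δ k + 1)))).erase 1,
      Equiv.Perm.sign τ • G τ, ?_, ?_⟩
    · refine Submodule.neg_mem _ (Submodule.sum_mem _ fun τ hτ => ?_)
      have h1 := hG1 τ (Finset.ne_of_mem_erase hτ)
      rcases Int.units_eq_one_or (Equiv.Perm.sign τ) with h2 | h2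
      · rw [h2, one_smul]; exact h1
      · rw [h2, Units.neg_smul, one_smul]; exact Submodule.neg_mem _ h1
    · have h1 := I.mul_mem_left (monomial e0 (1 : ℂ)) (hI k _ _ hch)
      rw [det_eq ι hF hch, Finset.mul_sum] at h1
      have h2 : ∀ τ : Equiv.Perm (Fin (S.δ k + 1)), monomial e0 (1 : ℂ) *
          (Equiv.Perm.sign τ • monomial (tt ι hF hch τ) (1 : ℂ)) =
          Equiv.Perm.sign τ • monomial (e0 + tt ι hF hch τ) (1 : ℂ) := by
        intro τ
        rw [mul_smul_comm, monomial_mul, one_mul]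
      simp_rw [h2] at h1
      rw [← Finset.add_sum_erase _ _ (Finset.mem_univ (1 : Equiv.Perm (Fin (S.δ k + 1)))),
        Equiv.Perm.sign_one, one_smul, he0] at h1
      have h3 : ∑ τ ∈ (univ : Finset (Equiv.Perm (Fin (S.δ k + 1)))).erase 1,
          Equiv.Perm.sign τ • (monomial (e0 + tt ι hF hch τ) (1 : ℂ) - G τ) ∈ I := by
        refine Ideal.sum_mem _ fun τ hτ => ?_
        have h4 := hG2 τ (Finset.ne_of_mem_erase hτ)
        rcases Int.units_eq_one_or (Equiv.Perm.sign τ) with h5 | h5
        · rw [h5, one_smul]; exact h4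
        · rw [h5, Units.neg_smul, one_smul]; exact I.neg_mem h4
      have h6 := I.sub_mem h1 h3
      have h7 : monomial e (1 : ℂ) - -∑ τ ∈ (univ : Finset (Equiv.Perm (Fin (S.δ k + 1)))).erase 1,
          Equiv.Perm.sign τ • G τ = monomial e (1 : ℂ) +
          ∑ τ ∈ (univ : Finset (Equiv.Perm (Fin (S.δ k + 1)))).erase 1,
          Equiv.Perm.sign τ • monomial (e0 + tt ι hF hch τ) (1 : ℂ) -
          ∑ τ ∈ (univ : Finset (Equiv.Perm (Fin (S.δ k + 1)))).erase 1,
          Equiv.Perm.sign τ • (monomial (e0 + tt ι hF hch τ) (1 : ℂ) - G τ) := by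
        simp only [smul_sub, Finset.sum_sub_distrib]
        ring
      rw [h7]
      exact h6

/-! ### The Hilbert-Samuel function -/

/-- the sums of the rank one matrices of the pieces -/
noncomputable def lowZ (S : Sys m) (D : ℕ) (x y : Pc n D → Fin n → ℂ) : σ → ℂ := fun s =>
  ∑ κ, if pcs S D κ (ι s) then x κ (ι s).1 * y κ (ι s).2 else 0

/-- the two properties of the set -/
structure GoodZ (S : Sys m) (D : ℕ) (Z : Set (σ → ℂ)) : Prop where
  full : Full ι S
  hD : ∀ k, S.δ k ≤ D
  low : ∀ x y : Pc n D → Fin n → ℂ, lowZ ι S D x y ∈ Z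
  minor : ∀ (k : Fin m) (r c : Fin (S.δ k + 1) → Fin n), IsCh S k r c →
    (Matrix.of fun i j => (xx ι (r i, c j) : MvPolynomial σ ℂ)).det ∈ vanishingIdeal ℂ Z

variable {ι}

/-- the substitution kills the members of the ideal -/
lemma phi_rename {S : Sys m} {D : ℕ} {Z : Set (σ → ℂ)} (hZ : GoodZ ι S D Z)
    (g : MvPolynomial σ ℂ) (hg : g ∈ vanishingIdeal ℂ Z) :
    phi (pcs S D) ℂ (rename ι g) = 0 := by
  apply MvPolynomial.funext
  intro x
  rw [map_zero]
  have h1 := (mem_vanishingIdeal_iff.1 hg) _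
    (hZ.low (fun κ a => x (κ, Sum.inl a)) (fun κ b => x (κ, Sum.inr b)))
  rw [← h1]
  unfold phi
  rw [aeval_rename]
  have h2 : (eval x) ((aeval ((fun p => ent (pcs S D) ℂ p) ∘ ι)) g) =
      (aeval x : MvPolynomial (Par n (Pc n D)) ℂ →ₐ[ℂ] ℂ)
        ((aeval ((fun p => ent (pcs S D) ℂ p) ∘ ι)) g) := by
    generalize (aeval ((fun p => ent (pcs S D) ℂ p) ∘ ι)) g = y
    rfl
  rw [h2, ← AlgHom.comp_apply, comp_aeval]
  congr 2
  funext p
  simp only [Function.comp_apply, ent, lowZ, map_sum]
  refine Finset.sum_congr rfl fun κ _ => ?_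
  split_ifs
  · rw [map_mul, aeval_X, aeval_X]
  · rw [map_zero]

variable (ι) in
/-- standard exponents of degree at most `t` -/
def StdT (S : Sys m) (t : ℕ) : Type := {e : σ →₀ ℕ // StdE S (upx ι e) ∧ e.degree ≤ t}

/-- a combination of standard monomials of degree at most `t` which lies in `I + m^(t+1)` is
zero -/
lemma eq_zero_of_mem_sup {S : Sys m} {D : ℕ} {Z : Set (σ → ℂ)} (hZ : GoodZ ι S D Z) (t : ℕ)
    (h : MvPolynomial σ ℂ) (hh : ∀ e ∈ h.support, StdE S (upx ι e) ∧ e.degree ≤ t)
    (hm : h ∈ vanishingIdeal ℂ Z ⊔ idealOfVars σ ℂ ^ (t + 1)) : h = 0 := by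
  classical
  obtain ⟨g, hg, q, hq, hgq⟩ := Submodule.mem_sup.1 hm
  have h1 : rename ι h = (0 : MvPolynomial (Fin n × Fin n) ℂ) := by
    apply eq_zero_of_mem (pcs S D) ℂ t _ (rename ι g)
    · intro e he
      rw [support_rename_of_injective ι.injective, Finset.mem_image] at he
      obtain ⟨e', he', rfl⟩ := he
      have h2 := hh e' he'
      exact ⟨isChainSum_of_std S D hZ.hD (upx ι e') h2.1, by
        have := degree_upx ι e'
        unfold upx at this
        rw [this]; exact h2.2⟩
    · exact phi_rename hZ g hg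
    · rw [← map_sub, ← hgq, add_sub_cancel_left]
      have h3 : Ideal.map (rename ι : MvPolynomial σ ℂ →ₐ[ℂ] _).toRingHom
          (idealOfVars σ ℂ) ≤ idealOfVars (Fin n × Fin n) ℂ := by
        unfold idealOfVars
        rw [Ideal.map_span, Ideal.span_le]
        rintro _ ⟨_, ⟨p, rfl⟩, rfl⟩
        show rename ι (X p) ∈ _
        rw [rename_X]
        exact Ideal.subset_span ⟨_, rfl⟩
      have h4 : (rename ι : MvPolynomial σ ℂ →ₐ[ℂ] _).toRingHom q ∈
          Ideal.map (rename ι : MvPolynomial σ ℂ →ₐ[ℂ] _).toRingHom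
            (idealOfVars σ ℂ ^ (t + 1)) := Ideal.mem_map_of_mem _ hq
      rw [Ideal.map_pow] at h4
      exact Ideal.pow_right_mono h3 (t + 1) h4
  exact rename_injective _ ι.injective (by rw [h1, map_zero])

/-- the class of a standard monomial -/
noncomputable def cls (S : Sys m) (Z : Set (σ → ℂ)) (t : ℕ) (e : StdT ι S t) :
    MvPolynomial σ ℂ ⧸ (vanishingIdeal ℂ Z ⊔ (idealOfVars σ ℂ) ^ (t + 1)) :=
  Ideal.Quotient.mk _ (monomial e.1 1)

lemma cls_li {S : Sys m} {D : ℕ} {Z : Set (σ → ℂ)} (hZ : GoodZ ι S D Z) (t : ℕ) :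
    LinearIndependent ℂ (cls (ι := ι) S Z t) := by
  classical
  rw [linearIndependent_iff']
  intro s a hs i hi
  have h1 : (∑ e ∈ s, monomial e.1 (a e) : MvPolynomial σ ℂ) ∈
      vanishingIdeal ℂ Z ⊔ idealOfVars σ ℂ ^ (t + 1) := by
    rw [← Ideal.Quotient.eq_zero_iff_mem, map_sum, ← hs]
    refine Finset.sum_congr rfl fun e _ => ?_
    unfold cls
    have h2 : (monomial e.1 (a e) : MvPolynomial σ ℂ) = a e • monomial e.1 1 := by
      rw [smul_monomial, smul_eq_mul, mul_one]
    rw [h2]
    rfl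
  have h2 : ∀ e : σ →₀ ℕ, coeff e (∑ e ∈ s, monomial e.1 (a e) : MvPolynomial σ ℂ) =
      ∑ e' ∈ s, if e'.1 = e then a e' else 0 := by
    intro e
    rw [coeff_sum]
    refine Finset.sum_congr rfl fun e' _ => ?_
    rw [coeff_monomial]
  have h3 := eq_zero_of_mem_sup hZ t _ (by
    intro e he
    rw [mem_support_iff, h2] at he
    obtain ⟨e', _, he'⟩ := Finset.exists_ne_zero_of_sum_ne_zero he
    have h4 : e'.1 = e := by
      by_contra hne
      exact he' (if_neg hne)
    rw [← h4]
    exact e'.2) h1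
  have h5 := h2 i.1
  rw [h3, coeff_zero, Finset.sum_eq_single i] at h5
  · rw [if_pos rfl] at h5
    exact h5.symm
  · intro e _ he
    rw [if_neg]
    intro hh
    exact he (Subtype.ext hh)
  · intro hh
    exact absurd hi hh

lemma cls_span {S : Sys m} {D : ℕ} {Z : Set (σ → ℂ)} (hZ : GoodZ ι S D Z) (t : ℕ) :
    ⊤ ≤ Submodule.span ℂ (Set.range (cls (ι := ι) S Z t)) := by
  classical
  have key : ∀ e : σ →₀ ℕ, (Ideal.Quotient.mk (vanishingIdeal ℂ Z ⊔
      (idealOfVars σ ℂ) ^ (t + 1)) (monomial e 1) : _ ⧸ _) ∈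
      Submodule.span ℂ (Set.range (cls (ι := ι) S Z t)) := by
    intro e
    by_cases he : e.degree ≤ t
    · obtain ⟨g, hg, hge⟩ := straight ι S hZ.full (vanishingIdeal ℂ Z) hZ.minor e
      have h1 : (Ideal.Quotient.mk (vanishingIdeal ℂ Z ⊔
          (idealOfVars σ ℂ) ^ (t + 1)) (monomial e 1) : _ ⧸ _) =
          Ideal.Quotient.mk _ g := by
        rw [Ideal.Quotient.eq]
        exact Ideal.mem_sup_left hge
      rw [h1]
      have h2 : Submodule.span ℂ {x : MvPolynomial σ ℂ | ∃ e' : σ →₀ ℕ, StdE S (upx ι e') ∧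
          e'.degree = e.degree ∧ x = monomial e' 1} ≤
          (Submodule.span ℂ (Set.range (cls (ι := ι) S Z t))).comap
          (Ideal.Quotient.mkₐ ℂ (vanishingIdeal ℂ Z ⊔
          (idealOfVars σ ℂ) ^ (t + 1))).toLinearMap := by
        rw [Submodule.span_le]
        rintro _ ⟨e', he1, he2, rfl⟩
        exact Submodule.subset_span ⟨⟨e', he1, by rw [he2]; exact he⟩, rfl⟩
      exact h2 hg
    · have h1 : (Ideal.Quotient.mk (vanishingIdeal ℂ Z ⊔
          (idealOfVars σ ℂ) ^ (t + 1)) (monomial e 1) : _ ⧸ _) = 0 := by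
        rw [Ideal.Quotient.eq_zero_iff_mem]
        apply Ideal.mem_sup_right
        rw [mem_pow_idealOfVars_iff']
        intro x hx
        rw [coeff_monomial, if_neg]
        rintro rfl
        omega
      rw [h1]
      exact Submodule.zero_mem _
  intro y _
  obtain ⟨p, rfl⟩ := Ideal.Quotient.mk_surjective y
  rw [p.as_sum, map_sum]
  refine Submodule.sum_mem _ fun e _ => ?_
  have h2 : (monomial e (coeff e p) : MvPolynomial σ ℂ) = coeff e p • monomial e 1 := by
    rw [smul_monomial, smul_eq_mul, mul_one]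
  rw [h2]
  exact Submodule.smul_mem _ _ (key e)

/-- the Hilbert-Samuel function counts the standard exponents -/
theorem Hf_eq {S : Sys m} {D : ℕ} {Z : Set (σ → ℂ)} (hZ : GoodZ ι S D Z) (t : ℕ) :
    Hf Z t = Nat.card (StdT ι S t) := by
  unfold Hf
  exact Module.finrank_eq_nat_card_basis (Module.Basis.mk (cls_li hZ t) (cls_span hZ t))

variable (ι) in
/-- faces of the system -/
def IsFace (S : Sys m) (F : Finset σ) : Prop := ∀ k, ∀ p ∈ EE (F.map ι) (S.δ k), ¬ reg S k p

instance (S : Sys m) (F : Finset σ) : Decidable (IsFace ι S F) := by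
  unfold IsFace; infer_instance

variable [Fintype σ] [DecidableEq σ]

variable (ι) in
/-- the size of the largest faces -/
def topD (S : Sys m) : ℕ := ((univ : Finset (Finset σ)).filter fun F => IsFace ι S F).sup card

variable (ι) in
/-- the number of the faces of the largest size -/
def topN (S : Sys m) : ℕ :=
  ((univ : Finset (Finset σ)).filter fun F => IsFace ι S F ∧ F.card = topD ι S).card

lemma topN_pos (S : Sys m) : 0 < topN ι S := by
  unfold topN
  rw [Finset.card_pos]
  have h0 : IsFace ι S (∅ : Finset σ) := by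
    intro k p hp
    have : EE ((∅ : Finset σ).map ι) (S.δ k) ⊆ EE ((∅ : Finset σ).map ι) 0 :=
      EE_antitone _ (Nat.zero_le _)
    have h1 := this hp
    simp [EE] at h1
  have hne : ((univ : Finset (Finset σ)).filter fun F => IsFace ι S F).Nonempty :=
    ⟨∅, Finset.mem_filter.2 ⟨Finset.mem_univ _, h0⟩⟩
  obtain ⟨F, hF, hFc⟩ := Finset.exists_mem_eq_sup _ hne card
  rw [Finset.mem_filter] at hF
  exact ⟨F, Finset.mem_filter.2 ⟨Finset.mem_univ _, hF.2, hFc.symm⟩⟩

/-- the Hilbert-Samuel function as a sum over the faces -/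
lemma card_stdT (S : Sys m) (t : ℕ) : Nat.card (StdT ι S t) =
    ∑ F : {F : Finset σ // IsFace ι S F}, t.choose F.1.card := by
  classical
  have hstd : ∀ e : σ →₀ ℕ, StdE S (upx ι e) ↔ IsFace ι S e.support := by
    intro e
    unfold StdE IsFace
    rw [upx_support]
  have e : StdT ι S t ≃ Σ F : {F : Finset σ // IsFace ι S F}, SupT F.1 t :=
    { toFun := fun e => ⟨⟨e.1.support, (hstd e.1).1 e.2.1⟩, ⟨e.1, rfl, e.2.2⟩⟩
      invFun := fun x => ⟨x.2.1, by rw [hstd, x.2.2.1]; exact x.1.2, x.2.2.2⟩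
      left_inv := fun e => rfl
      right_inv := by
        rintro ⟨⟨F, hF⟩, ⟨e, he1, he2⟩⟩
        simp only at he1
        subst he1
        rfl }
  rw [Nat.card_congr e, Nat.card_sigma]
  refine Finset.sum_congr rfl fun F _ => ?_
  rw [card_supT]

/-- the multiplicity is the number of the faces of the largest size -/
theorem isMult {S : Sys m} {D' : ℕ} {Z : Set (σ → ℂ)} (hZ : GoodZ ι S D' Z) :
    IsMult Z (topN ι S) := by
  classical
  let D := topD ι S
  let N := topN ι S
  have hD : ∀ F : Finset σ, IsFace ι S F → F.card ≤ D := fun F hF =>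
    Finset.le_sup (f := card) (Finset.mem_filter.2 ⟨Finset.mem_univ F, hF⟩)
  have hN : (univ.filter fun F : Finset σ => IsFace ι S F ∧ F.card = D).card = N := rfl
  have hN0 : 0 < N := topN_pos S
  let P : Polynomial ℚ := ∑ F : {F : Finset σ // IsFace ι S F},
    Polynomial.C (1 / (F.1.card.factorial : ℚ)) * descPochhammer ℚ F.1.card
  have hev : ∀ t : ℕ, (Hf Z t : ℚ) = P.eval (t : ℚ) := by
    intro t
    rw [Hf_eq hZ, card_stdT]
    simp only [P]
    rw [Polynomial.eval_finsetSum, Nat.cast_sum]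
    refine Finset.sum_congr rfl fun F _ => ?_
    rw [Polynomial.eval_mul, Polynomial.eval_C, descPochhammer_eval_eq_descFactorial,
      Nat.descFactorial_eq_factorial_mul_choose]
    have h1 : (F.1.card.factorial : ℚ) ≠ 0 := by exact_mod_cast Nat.factorial_ne_zero _
    push_cast
    field_simp
  have hdeg : P.natDegree ≤ D := by
    apply Polynomial.natDegree_sum_le_of_forall_le
    intro F _
    refine (Polynomial.natDegree_C_mul_le _ _).trans ?_
    rw [descPochhammer_natDegree]
    exact hD F.1 F.2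
  have hcoef : P.coeff D = (N : ℚ) / (D.factorial : ℚ) := by
    simp only [P]
    rw [Polynomial.finsetSum_coeff]
    have h1 : ∀ F : {F : Finset σ // IsFace ι S F},
        (Polynomial.C (1 / (F.1.card.factorial : ℚ)) * descPochhammer ℚ F.1.card).coeff D =
        if F.1.card = D then 1 / (D.factorial : ℚ) else 0 := by
      intro F
      rw [Polynomial.coeff_C_mul]
      by_cases h : F.1.card = D
      · rw [if_pos h, h]
        have h2 : (descPochhammer ℚ D).coeff D = 1 := by
          have h3 := (monic_descPochhammer ℚ D).coeff_natDegree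
          rw [descPochhammer_natDegree] at h3
          exact h3
        rw [h2, mul_one]
      · rw [if_neg h]
        have h2 : (descPochhammer ℚ F.1.card).natDegree < D := by
          rw [descPochhammer_natDegree]
          exact lt_of_le_of_ne (hD F.1 F.2) h
        rw [Polynomial.coeff_eq_zero_of_natDegree_lt h2, mul_zero]
    simp_rw [h1]
    rw [← Finset.sum_filter, Finset.sum_const, nsmul_eq_mul, mul_one_div]
    congr 2
    rw [← hN, ← Fintype.card_subtype, ← Fintype.card_subtype]
    apply Fintype.card_congr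
    exact (Equiv.subtypeSubtypeEquivSubtypeInter (fun F : Finset σ => IsFace ι S F)
      (fun F : Finset σ => F.card = D))
  have hne : P.coeff D ≠ 0 := by
    rw [hcoef]
    have h1 : (D.factorial : ℚ) ≠ 0 := by exact_mod_cast Nat.factorial_ne_zero _
    have h2 : (N : ℚ) ≠ 0 := by exact_mod_cast hN0.ne'
    exact div_ne_zero h2 h1
  have hnd : P.natDegree = D := le_antisymm hdeg (Polynomial.le_natDegree_of_ne_zero hne)
  refine ⟨P, ?_, Filter.Eventually.of_forall hev, ?_⟩
  · intro h0
    rw [h0, Polynomial.coeff_zero] at hne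
    exact hne rfl
  · rw [Polynomial.leadingCoeff, hnd, hcoef]
    have h1 : (D.factorial : ℚ) ≠ 0 := by exact_mod_cast Nat.factorial_ne_zero _
    show (N : ℚ) = _
    field_simp

end G

end MP1c6e58.CAT
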